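import Pool.Agent.Y143.Pure

/-!
# Filtrations with the same weights coincide
-/

namespace Pool.Agent.W2helper44.MW

universe u v

open Module Pool.Agent.Y143

section weights

variable {Ω : Type u} [Field Ω] [CharZero Ω] {q : ℕ}

/-- The weight of a Weil number is unique. -/
lemma weight_unique (hq : 1 < q) {w w' : ℤ} {α : Ω} (h : IsWeilNumber q w α)
    (h' : IsWeilNumber q w' α) : w = w' := by
  have hint : IsIntegral ℚ α := h.1.isIntegral
  have hdeg : (minpoly ℚ α).degree ≠ 0 := (minpoly.degree_pos hint).ne'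
  obtain ⟨z, hz⟩ := IsAlgClosed.exists_aeval_eq_zero ℂ (minpoly ℚ α) hdeg
  have h1 := h.2 z hz
  have h2 := h'.2 z hz
  rw [h1] at h2
  have hq' : (1 : ℝ) < q := by exact_mod_cast hq
  have h3 := (Real.rpow_right_inj (by linarith) (ne_of_gt hq')).1 h2
  have h4 : (w : ℝ) = w' := by linarith
  exact_mod_cast h4

end weights

section linear

variable {Ω : Type u} [Field Ω] [IsAlgClosed Ω] {V : Type v} [AddCommGroup V] [Module Ω V]
  [FiniteDimensional Ω V]

/-- An eigenvector modulo a stable subspace. -/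
lemma exists_eigen_quot (Φ : Module.End Ω V) {Z B : Submodule Ω V} (hZ : ∀ x ∈ Z, Φ x ∈ Z)
    (hB : ∀ x ∈ B, Φ x ∈ B) (h : ¬ Z ≤ B) :
    ∃ (α : Ω) (x : V), x ∈ Z ∧ x ∉ B ∧ Φ x - α • x ∈ B := by
  -- the image of `Z` in the quotient `V ⧸ B`
  let W : Submodule Ω (V ⧸ B) := Z.map B.mkQ
  have hmapsB : B ≤ B.comap Φ := hB
  let Ψ : Module.End Ω (V ⧸ B) := B.mapQ B Φ hmapsB
  have hW : ∀ x ∈ W, Ψ x ∈ W := by
    rintro _ ⟨x, hx, rfl⟩
    exact ⟨Φ x, hZ x hx, rfl⟩
  let R : Module.End Ω W := Ψ.restrict hW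
  have hne : Nontrivial W := by
    rw [Submodule.nontrivial_iff_ne_bot]
    intro h0
    apply h
    intro x hx
    have h1 : B.mkQ x ∈ W := ⟨x, hx, rfl⟩
    rw [h0, Submodule.mem_bot, Submodule.mkQ_apply, Submodule.Quotient.mk_eq_zero] at h1
    exact h1
  obtain ⟨α, hα⟩ := Module.End.exists_eigenvalue R
  obtain ⟨⟨y, hy⟩, hy1⟩ := hα.exists_hasEigenvector
  obtain ⟨x, hx, rfl⟩ := hy
  refine ⟨α, x, hx, ?_, ?_⟩
  · intro hxB
    apply hy1.2
    apply Subtype.ext
    show B.mkQ x = 0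
    rw [Submodule.mkQ_apply, Submodule.Quotient.mk_eq_zero]
    exact hxB
  · have h1 := congrArg Subtype.val hy1.apply_eq_smul
    have h2 : B.mkQ (Φ x) = α • B.mkQ x := h1
    rw [← map_smul, ← sub_eq_zero, ← map_sub, Submodule.mkQ_apply,
      Submodule.Quotient.mk_eq_zero] at h2
    exact h2

end linear

section filt

variable {Ω : Type u} [Field Ω] [CharZero Ω] [IsAlgClosed Ω] {V : Type v} [AddCommGroup V]
  [Module Ω V] [FiniteDimensional Ω V] {q : ℕ}

/-- A finite filtration by stable subspaces such that the eigenvalues on the graded piece in degree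
`w` are Weil numbers of weight `w`. -/
structure IsWeightFilt (q : ℕ) (Φ : Module.End Ω V) (F : ℤ → Submodule Ω V) : Prop where
  mono : Monotone F
  bot : ∃ w, F w = ⊥
  top : ∃ w, F w = ⊤
  stable : ∀ w x, x ∈ F w → Φ x ∈ F w
  weil : ∀ (w : ℤ) (α : Ω) (x : V), x ∈ F w → x ∉ F (w - 1) → Φ x - α • x ∈ F (w - 1) →
    IsWeilNumber q w α

omit [CharZero Ω] [IsAlgClosed Ω] [FiniteDimensional Ω V] in
/-- A nonzero element has an exact degree. -/
lemma exists_degree {F : ℤ → Submodule Ω V} (hm : Monotone F) (hb : ∃ w, F w = ⊥) {w : ℤ} {y : V}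
    (hy : y ∈ F w) (hy0 : y ≠ 0) : ∃ u ≤ w, y ∈ F u ∧ y ∉ F (u - 1) := by
  obtain ⟨b, hb⟩ := hb
  have hbw : b < w := by
    by_contra hcon
    have h1 := hm (not_lt.1 hcon) hy
    rw [hb, Submodule.mem_bot] at h1
    exact hy0 h1
  by_contra hcon
  push Not at hcon
  have key : ∀ k : ℕ, y ∈ F (w - k) := by
    intro k
    induction k with
    | zero => simpa using hy
    | succ k ih =>
      have h1 := hcon (w - k) (by omega) ih
      rwa [show w - (k : ℤ) - 1 = w - ((k + 1 : ℕ) : ℤ) by push_cast; ring] at h1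
  have h2 := key (w - b).toNat
  rw [show w - ((w - b).toNat : ℤ) = b by omega, hb, Submodule.mem_bot] at h2
  exact hy0 h2

/-- The weight filtration is unique. -/
lemma IsWeightFilt.le (hq : 1 < q) {Φ : Module.End Ω V} {F F' : ℤ → Submodule Ω V}
    (hF : IsWeightFilt q Φ F) (hF' : IsWeightFilt q Φ F') (w : ℤ) : F w ≤ F' w := by
  obtain ⟨t, ht⟩ := hF'.top
  have step : ∀ s : ℤ, w ≤ s → F w ≤ F' (s + 1) → F w ≤ F' s := by
    intro s hs hle
    by_contra hcon
    obtain ⟨α, x, hx, hxB, hxα⟩ := exists_eigen_quot Φ (hF.stable w) (hF'.stable s) hcon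
    have h1 : IsWeilNumber q (s + 1) α := by
      apply hF'.weil (s + 1) α x (hle hx)
      · rwa [show s + 1 - 1 = s by ring]
      · rwa [show s + 1 - 1 = s by ring]
    have hxα' : Φ x - α • x ∈ F w ⊓ F' s :=
      ⟨Submodule.sub_mem _ (hF.stable w x hx) (Submodule.smul_mem _ _ hx), hxα⟩
    obtain ⟨y, hy, hy0, hyα⟩ := exists_eigen (S := Φ) (α := α) (Z := F w) (B := F w ⊓ F' s)
      inf_le_left (fun z hz => ⟨hF.stable w z hz.1, hF'.stable s z hz.2⟩) hx (fun h => hxB h.2)
      hxα'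
    obtain ⟨u, hu, hyu, hyu'⟩ := exists_degree hF.mono hF.bot hy hy0
    have h2 : IsWeilNumber q u α := by
      apply hF.weil u α y hyu hyu'
      rw [hyα, sub_self]
      exact Submodule.zero_mem _
    have := weight_unique hq h1 h2
    omega
  have key : ∀ k : ℕ, w ≤ max t w - k → F w ≤ F' (max t w - k) := by
    intro k
    induction k with
    | zero =>
      intro _
      have h1 : F' (max t w) = ⊤ := by
        rw [eq_top_iff, ← ht]
        exact hF'.mono (le_max_left _ _)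
      rw [Nat.cast_zero, sub_zero, h1]
      exact le_top
    | succ k ih =>
      intro hk
      push_cast at hk ⊢
      apply step _ (by omega)
      rw [show max t w - ((k : ℤ) + 1) + 1 = max t w - k by ring]
      exact ih (by omega)
  have h2 := key (max t w - w).toNat (by omega)
  rwa [show max t w - ((max t w - w).toNat : ℤ) = w by omega] at h2

lemma IsWeightFilt.unique (hq : 1 < q) {Φ : Module.End Ω V} {F F' : ℤ → Submodule Ω V}
    (hF : IsWeightFilt q Φ F) (hF' : IsWeightFilt q Φ F') (w : ℤ) : F w = F' w :=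
  le_antisymm (hF.le hq hF' w) (hF'.le hq hF w)

end filt

section generic

variable {Ω : Type u} [Field Ω] [CharZero Ω] {Γ : Type} {n q : ℕ}
  (X : SemistableModel.{u, v} Ω Γ n q)

lemma finite_sp (i : ℕ) (w : ℤ) (h : (X.W i (w - 1)).FG) : (X.sp i w).FG := by
  apply Submodule.fg_of_fg_map_of_fg_inf_ker (LinearMap.snd Ω (X.V i) X.C)
  · exact IsNoetherian.noetherian _
  · have h1 : X.sp i w ⊓ LinearMap.ker (LinearMap.snd Ω (X.V i) X.C) ≤
        (X.W i (w - 1)).map (LinearMap.inl Ω (X.V i) X.C) := by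
      rintro ⟨v, x⟩ ⟨hv, hx⟩
      have hx0 : x = 0 := hx
      subst hx0
      exact ⟨v, (X.sp_ker i w v 0 hv).2 (Submodule.zero_mem _), rfl⟩
    have h2 := h.map (LinearMap.inl Ω (X.V i) X.C)
    have h3 : IsNoetherian Ω ((X.W i (w - 1)).map (LinearMap.inl Ω (X.V i) X.C)) :=
      isNoetherian_of_fg_of_noetherian _ h2
    exact h2.of_le h1
  
lemma fg_W (i : ℕ) (w : ℤ) : (X.W i w).FG := by
  obtain ⟨b, hb⟩ := X.W_bot i
  have key : ∀ k : ℕ, (X.W i (b + k)).FG := by
    intro k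
    induction k with
    | zero =>
      rw [Nat.cast_zero, add_zero, hb]
      exact Submodule.fg_bot
    | succ k ih =>
      have h1 := finite_sp X i (b + ((k + 1 : ℕ) : ℤ)) (by
        rwa [show b + ((k + 1 : ℕ) : ℤ) - 1 = b + k by push_cast; ring])
      have h2 := h1.map (LinearMap.fst Ω (X.V i) X.C)
      have h3 : (X.sp i (b + ((k + 1 : ℕ) : ℤ))).map (LinearMap.fst Ω (X.V i) X.C) =
          X.W i (b + ((k + 1 : ℕ) : ℤ)) := by
        apply le_antisymm
        · rintro _ ⟨⟨v, x⟩, hv, rfl⟩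
          exact (X.sp_mem i _ v x hv).1
        · intro v hv
          obtain ⟨x, hx⟩ := X.sp_left i _ v hv
          exact ⟨(v, x), hx, rfl⟩
      rwa [h3] at h2
  have h1 := key (max w b - b).toNat
  rw [show b + ((max w b - b).toNat : ℤ) = max w b by omega] at h1
  have h3 : IsNoetherian Ω (X.W i (max w b)) := isNoetherian_of_fg_of_noetherian _ h1
  exact h1.of_le (X.W_mono i (le_max_left w b))

lemma finite_V (i : ℕ) : FiniteDimensional Ω (X.V i) := by
  obtain ⟨t, ht⟩ := X.W_top i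
  have h1 := fg_W X i t
  rw [ht] at h1
  exact ⟨h1⟩

/-- The dimension of the graded pieces of the weight filtration. -/
lemma finrank_gr (i : ℕ) (w : ℤ) :
    finrank Ω (X.W i w) + finrank Ω (X.coboundaries (i - w) w) =
      finrank Ω (X.W i (w - 1)) + finrank Ω (X.cocycles (i - w) w) := by
  have := finite_V X i
  -- the part of the graph over `W (w - 1)`
  let S' : Submodule Ω (X.V i × X.C) := X.sp i w ⊓
    (X.W i (w - 1)).comap (LinearMap.fst Ω (X.V i) X.C)
  have hS' : ∀ v x, (v, x) ∈ S' ↔ (v, x) ∈ X.sp i w ∧ v ∈ X.W i (w - 1) := fun v x => Iff.rfl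
  have a1 := finrank_map_add_ker (LinearMap.fst Ω (X.V i) X.C) (X.sp i w)
  have a2 := finrank_map_add_ker (LinearMap.fst Ω (X.V i) X.C) S'
  have a3 := finrank_map_add_ker (LinearMap.snd Ω (X.V i) X.C) (X.sp i w)
  have a4 := finrank_map_add_ker (LinearMap.snd Ω (X.V i) X.C) S'
  have b1 : (X.sp i w).map (LinearMap.fst Ω (X.V i) X.C) = X.W i w := by
    apply le_antisymm
    · rintro _ ⟨⟨v, x⟩, hv, rfl⟩
      exact (X.sp_mem i _ v x hv).1
    · intro v hv
      obtain ⟨x, hx⟩ := X.sp_left i _ v hv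
      exact ⟨(v, x), hx, rfl⟩
  have b2 : S'.map (LinearMap.fst Ω (X.V i) X.C) = X.W i (w - 1) := by
    apply le_antisymm
    · rintro _ ⟨⟨v, x⟩, hv, rfl⟩
      exact hv.2
    · intro v hv
      obtain ⟨x, hx⟩ := X.sp_left i w v (X.W_mono i (by omega) hv)
      exact ⟨(v, x), ⟨hx, hv⟩, rfl⟩
  have b3 : (X.sp i w).map (LinearMap.snd Ω (X.V i) X.C) = X.cocycles (i - w) w := by
    apply le_antisymm
    · rintro _ ⟨⟨v, x⟩, hv, rfl⟩
      exact (X.sp_mem i _ v x hv).2
    · intro x hx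
      obtain ⟨v, hv⟩ := X.sp_right i _ x hx
      exact ⟨(v, x), hv, rfl⟩
  have b4 : S'.map (LinearMap.snd Ω (X.V i) X.C) = X.coboundaries (i - w) w := by
    apply le_antisymm
    · rintro _ ⟨⟨v, x⟩, hv, rfl⟩
      exact (X.sp_ker i w v x hv.1).1 hv.2
    · intro x hx
      obtain ⟨v, hv⟩ := X.sp_right i w x (X.bd_le_zc _ _ hx)
      exact ⟨(v, x), ⟨hv, (X.sp_ker i w v x hv).2 hx⟩, rfl⟩
  have c1 : X.sp i w ⊓ LinearMap.ker (LinearMap.fst Ω (X.V i) X.C) =
      S' ⊓ LinearMap.ker (LinearMap.fst Ω (X.V i) X.C) := by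
    ext ⟨v, x⟩
    constructor
    · rintro ⟨h1, h2⟩
      have h3 : v = 0 := h2
      refine ⟨⟨h1, ?_⟩, h2⟩
      show v ∈ X.W i (w - 1)
      rw [h3]
      exact Submodule.zero_mem _
    · rintro ⟨h1, h2⟩
      exact ⟨h1.1, h2⟩
  have c2 : X.sp i w ⊓ LinearMap.ker (LinearMap.snd Ω (X.V i) X.C) =
      S' ⊓ LinearMap.ker (LinearMap.snd Ω (X.V i) X.C) := by
    ext ⟨v, x⟩
    constructor
    · rintro ⟨h1, h2⟩
      have h3 : x = 0 := h2
      refine ⟨⟨h1, ?_⟩, h2⟩
      show v ∈ X.W i (w - 1)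
      rw [X.sp_ker i w v x h1, h3]
      exact Submodule.zero_mem _
    · rintro ⟨h1, h2⟩
      exact ⟨h1.1, h2⟩
  rw [b1, c1] at a1
  rw [b2] at a2
  rw [b3, c2] at a3
  rw [b4] at a4
  omega

/-- The weight filtration of the cohomology of the generic fibre. -/
lemma weightFilt_W (i : ℕ) : IsWeightFilt q (X.actV i X.frob) (X.W i) where
  mono := X.W_mono i
  bot := X.W_bot i
  top := X.W_top i
  stable w v hv := by
    obtain ⟨x, hx⟩ := X.sp_left i _ v hv
    exact (X.sp_mem i _ _ _ (X.sp_act i _ v x X.frob hx)).1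
  weil w α v hv hv' hα := by
    obtain ⟨x, hx⟩ := X.sp_left i _ v hv
    have h1 := (X.sp_mem i _ _ _ hx).2
    have h2 : x ∉ X.coboundaries (i - w) w := by
      intro hc
      exact hv' ((X.sp_ker i _ _ _ hx).2 hc)
    have h3 : (X.actV i X.frob v - α • v, X.actC (i - w) X.frob x - α • x) ∈ X.sp i w := by
      exact Submodule.sub_mem _ (X.sp_act i _ v x X.frob hx) (Submodule.smul_mem _ α hx)
    have h5 : X.actC (i - w) X.frob x - α • x ∈ X.coboundaries (i - w) w :=
      (X.sp_ker i _ _ _ h3).1 hα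
    obtain ⟨y, hy, hy0, hyα⟩ := exists_eigen (S := X.actC (i - w) X.frob)
      (X.bd_le_zc _ _) (fun x hx => X.actC_bd _ _ _ hx) h1 h2 h5
    exact X.weil_E₁ hy.1 hy0 hyα

variable [IsAlgClosed Ω]

/-- If `H^i` is mw pure, the weight filtration is the monodromy filtration. -/
theorem monodromy_of_pure (hq : 1 < q) (i : ℕ) (h : IsMWPure q i (X.actV i X.frob) (X.N i)) :
    IsMonodromyFiltration (X.N i) (fun a => X.W i (i + a)) := by
  have := finite_V X i
  obtain ⟨M, hM, hMs, hMw⟩ := h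
  have hF' : IsWeightFilt q (X.actV i X.frob) (fun w => M (w - i)) :=
    { mono := fun a b hab => hM.mono (by omega)
      bot := by
        obtain ⟨a, ha⟩ := hM.bot
        exact ⟨a + i, by rw [show a + (i : ℤ) - i = a by ring, ha]⟩
      top := by
        obtain ⟨a, ha⟩ := hM.top
        exact ⟨a + i, by rw [show a + (i : ℤ) - i = a by ring, ha]⟩
      stable := fun w x hx => hMs _ x hx
      weil := by
        intro w α x hx hx' hα
        have h1 := hMw (w - i) α x hx (by rwa [show w - (i : ℤ) - 1 = w - 1 - i by ring]) (by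
          rwa [show w - (i : ℤ) - 1 = w - 1 - i by ring])
        rwa [show w - (i : ℤ) + i = w by ring] at h1 }
  have hEq : (fun a : ℤ => X.W i (i + a)) = M := by
    funext a
    have h1 := (weightFilt_W X i).unique hq hF' (i + a)
    rw [h1]
    show M ((i : ℤ) + a - i) = M a
    congr 1
    ring
  rw [hEq]
  exact hM

end generic

end Pool.Agent.W2helper44.MW
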