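import Pool.Agent.X302.MW.Fin
import Pool.Agent.W2helper44.MW.Filt

/-!
# Threefolds: the critical condition
-/

namespace Pool.Agent.W2helper44.MW

universe u v

open Module Pool.Agent.Y143 Pool.Agent.X302.MW

variable {Ω : Type u} [Field Ω] [CharZero Ω] {Γ : Type} {n q : ℕ}

/-- The critical condition: if `τ ρ y = 0` for `y ∈ H^2(Y^(1))`, then `ρ y` is the Gysin image of an
element of `H^0(Y^(3))` with vanishing restriction. -/
def Crit (X : SpecialFibre.{u, v} Ω Γ n q) : Prop :=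
  ∀ y ∈ X.gr 0 2, X.gys 0 (X.res 0 y) = 0 →
    ∃ v ∈ X.gr 2 0, X.res 2 v = 0 ∧ X.res 0 y = X.gys 1 v

section singles

variable (X : SpecialFibre.{u, v} Ω Γ n q)

lemma inCol (r : ℤ) (a : ℕ) (h1 : |r| ≤ a) (h2 : 2 ∣ (a : ℤ) - r) : InColumn r a := ⟨h1, h2⟩

/-- The differential of an element of `E_1^(0, w)` concentrated in `H^w(Y^(1))`. -/
lemma diff_single0 (y : X.H 0) :
    X.diff 0 (Pi.single 0 y : X.C) = Pi.single 1 (X.res 0 y) := by
  classical
  funext b
  rw [X.diff_apply]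
  by_cases hc : InColumn (0 + 1) b
  · rw [X.cut_of hc, Pi.add_apply, X.gysC_apply, Pi.single_eq_of_ne (by omega), map_zero,
      add_zero]
    cases b with
    | zero =>
      have := hc.1
      rw [zero_add, abs_one] at this
      norm_num at this
    | succ b =>
      rw [X.resC_succ]
      by_cases hb : b = 0
      · subst hb
        rw [Pi.single_eq_same]
        show X.res 0 y = (Pi.single 1 (X.res 0 y) : X.C) 1
        rw [Pi.single_eq_same]
      · rw [Pi.single_eq_of_ne hb, map_zero, Pi.single_eq_of_ne (by omega)]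
  · rw [X.cut_of_not hc, Pi.single_eq_of_ne]
    rintro rfl
    exact hc (inCol _ _ (by norm_num) (by norm_num))

/-- The differential of an element of `E_1^(-1, w)` concentrated in `Y^(2)`. -/
lemma diff_single1 (z : X.H 1) :
    X.diff (-1) (Pi.single 1 z : X.C) = Pi.single 0 (X.gys 0 z) + Pi.single 2 (X.res 1 z) := by
  classical
  funext b
  rw [X.diff_apply]
  by_cases hc : InColumn (-1 + 1) b
  · rw [X.cut_of hc, Pi.add_apply, Pi.add_apply, X.gysC_apply]
    have hc2 := hc.2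
    cases b with
    | zero =>
      have e : (Pi.single 2 (X.res 1 z) : X.C) 0 = 0 := Pi.single_eq_of_ne (by norm_num) _
      rw [X.resC_zero, zero_add, e, add_zero]
      show X.gys 0 ((Pi.single 1 z : X.C) 1) = (Pi.single 0 (X.gys 0 z) : X.C) 0
      rw [Pi.single_eq_same, Pi.single_eq_same]
    | succ b =>
      rw [X.resC_succ, Pi.single_eq_of_ne (i := 1) (i' := b + 1 + 1) (by omega), map_zero,
        add_zero, Pi.single_eq_of_ne (i := 0) (by omega), zero_add]
      by_cases hb : b = 1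
      · subst hb
        rw [Pi.single_eq_same]
        show X.res 1 z = (Pi.single 2 (X.res 1 z) : X.C) 2
        rw [Pi.single_eq_same]
      · rw [Pi.single_eq_of_ne hb, map_zero, Pi.single_eq_of_ne (by omega)]
  · rw [X.cut_of_not hc, Pi.add_apply]
    have hb0 : b ≠ 0 := by
      rintro rfl
      exact hc (inCol _ _ (by norm_num) (by norm_num))
    have hb2 : b ≠ 2 := by
      rintro rfl
      exact hc (inCol _ _ (by norm_num) (by norm_num))
    rw [Pi.single_eq_of_ne hb0, Pi.single_eq_of_ne hb2, add_zero]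

end singles

section sufficient

variable [IsAlgClosed Ω] (X : Degeneration.{u, v} Ω Γ n q)

omit [IsAlgClosed Ω] in
lemma nInj_tot_of (a m : ℕ) {w : ℤ} (hw : w = n - m - ((a : ℤ) + 1))
    (hK : ∀ y ∈ X.gr a w, X.gys a (X.res a y) = 0 → (Pi.single (a + 1) (X.res a y) : X.C) ∈
        X.coboundaries (-((a : ℤ) + 1)) (w + 2 * ((a : ℤ) + 1))) :
    NInj X.diff X.tot ((a : ℤ) + 1) (-m) := by
  rintro x ⟨hx1, hx2⟩
  obtain ⟨y, hy, hyx⟩ := hx2
  rw [show (a : ℤ) + 1 - 1 = a by ring] at hy hyx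
  have hyE : y ∈ X.E₁ a w := X.mem_E₁_cast rfl (by rw [hw]; ring) hy
  have hx0 : X.diff (-((a : ℤ) + 1)) (X.diff a y) = 0 := by
    rw [hyx]
    exact hx1.2
  obtain ⟨h1, y', hy', h2⟩ := reduce X.toSpecialFibre a w hyE hx0
  have hya : y a ∈ X.gr a w := by
    have := (hyE a).1
    rwa [show w + (a : ℤ) - a = w by ring] at this
  have h3 := hK (y a) hya h1
  rw [X.bd_eq, show (n : ℤ) + -(m : ℤ) - -((a : ℤ) + 1) = w + 2 * ((a : ℤ) + 1) by
    rw [hw]; ring, ← hyx, h2]
  exact Submodule.add_mem _ ⟨y', hy', rfl⟩ h3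

/-- The critical condition implies that `H^k` is mw pure for all `k`. -/
theorem mw_of_crit (hn : n = 3) (A : DivisorClasses X.toSpecialFibre)
    (hC : Crit X.toSpecialFibre) (k : ℕ) : IsMWPure q k (X.actV k X.frob) (X.N k) := by
  subst hn
  have hI : ∀ i : ℤ, 1 ≤ i → ∀ m : ℕ, CritI X.diff X.lefC X.tot i m := by
    intro i hi m
    left
    obtain ⟨a, ha⟩ := Int.eq_ofNat_of_zero_le (show 0 ≤ i - 1 by omega)
    obtain rfl : i = (a : ℤ) + 1 := by omega
    apply nInj_tot_of X a m rfl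
    intro y hy hG
    rcases lt_or_ge (((3 : ℕ) : ℤ) - m - ((a : ℤ) + 1)) 2 with hw | hw
    · have h0 : X.res a y = 0 := by
        rcases lt_or_ge (((3 : ℕ) : ℤ) - m - ((a : ℤ) + 1)) 0 with hw' | hw'
        · rw [X.gr_eq_bot a _ (Or.inl hw'), Submodule.mem_bot] at hy
          rw [hy, map_zero]
        · obtain ⟨w, hw2⟩ := Int.eq_ofNat_of_zero_le hw'
          rw [hw2] at hy hw
          have : w < 2 := by omega
          interval_cases w
          · exact crit0 A a (by simpa using hy) hG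
          · exact crit1 A a (by simpa using hy) hG
      rw [h0, Pi.single_zero]
      exact Submodule.zero_mem _
    · obtain rfl : a = 0 := by omega
      obtain rfl : m = 0 := by omega
      have hw2 : ((3 : ℕ) : ℤ) - ((0 : ℕ) : ℤ) - (((0 : ℕ) : ℤ) + 1) = 2 := by norm_num
      rw [hw2] at hy ⊢
      obtain ⟨v, hv, hR, hz⟩ := hC y hy hG
      rw [hz]
      exact single_mem_cobound X 0 hv hR
  have hG : ∀ i j : ℤ, 1 ≤ i → Good2 X.diff X.tot X.tot i j := fun i j hi =>
    good X.lefDual X.lefComplex X.lefComplex 0 (fun i hi m _ => Or.inl ⟨hI i hi m, hI i hi m⟩)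
      i j hi (by simp)
  apply X.toSemistableModel.isMWPure_of k
  · intro a ha
    exact (hG a _ (by exact_mod_cast ha)).inj
  · intro a ha
    exact (hG a _ (by exact_mod_cast ha)).surj

end sufficient

section necessary

variable [IsAlgClosed Ω] (X : SemistableModel.{u, v} Ω Γ n q)

/-- The critical condition is necessary. -/
theorem crit_of_mw (hn : n = 3) (hq : 1 < q) (h : IsMWPure q (3 : ℕ) (X.actV 3 X.frob) (X.N 3)) :
    Crit X.toSpecialFibre := by
  classical
  subst hn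
  intro y hy hG
  have hM := monodromy_of_pure X hq 3 h
  have hxE : (Pi.single 1 (X.res 0 y) : X.C) ∈ X.E₁ (-1) 4 := by
    apply X.single_mem (inCol _ _ (by norm_num) (by norm_num))
    rw [show (4 : ℤ) + -1 - ((1 : ℕ) : ℤ) = 2 by norm_num]
    exact X.res_gr 0 2 y hy
  have hxc : (Pi.single 1 (X.res 0 y) : X.C) ∈ X.cocycles (-1) 4 := by
    refine ⟨hxE, ?_⟩
    rw [SetLike.mem_coe, LinearMap.mem_ker, diff_single1, hG, X.res_res, Pi.single_zero,
      Pi.single_zero, add_zero]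
  obtain ⟨v, hv⟩ := X.sp_right 3 4 (Pi.single 1 (X.res 0 y)) (by
    rwa [show ((3 : ℕ) : ℤ) - 4 = -1 by norm_num])
  have h1 := X.sp_N 3 4 v _ hv
  rw [show ((3 : ℕ) : ℤ) - 4 + 2 = 1 by norm_num, show (4 : ℤ) - 2 = 2 by norm_num] at h1
  have h2 : X.cut 1 (Pi.single 1 (X.res 0 y) : X.C) = Pi.single 1 (X.res 0 y) := by
    funext b
    by_cases hb : InColumn 1 b
    · rw [X.cut_of hb]
    · rw [X.cut_of_not hb, Pi.single_eq_of_ne]
      rintro rfl
      exact hb (inCol _ _ (by norm_num) (by norm_num))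
  rw [h2] at h1
  have h3 : X.N 3 v ∈ X.W 3 (2 - 1) := by
    apply (X.sp_ker 3 2 _ _ h1).2
    rw [show ((3 : ℕ) : ℤ) - 2 = 1 by norm_num]
    refine ⟨Pi.single 0 y, ?_, ?_⟩
    · rw [show (1 : ℤ) - 1 = 0 by norm_num]
      apply X.single_mem (inCol _ _ (by norm_num) (by norm_num))
      simpa using hy
    · rw [show (1 : ℤ) - 1 = 0 by norm_num, diff_single0]
  have h4 : v ∈ X.W 3 4 := (X.sp_mem 3 4 v _ hv).1
  have h5 := hM.inj 1 v (by
    rwa [show ((3 : ℕ) : ℤ) + ((1 : ℕ) : ℤ) = 4 by norm_num]) (by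
    rwa [pow_one, show ((3 : ℕ) : ℤ) + (-((1 : ℕ) : ℤ) - 1) = 2 - 1 by norm_num])
  have h6 : v ∈ X.W 3 (4 - 1) := by
    rwa [show ((3 : ℕ) : ℤ) + (((1 : ℕ) : ℤ) - 1) = 4 - 1 by norm_num] at h5
  obtain ⟨u, hu, hux⟩ := (X.sp_ker 3 4 v _ hv).1 h6
  rw [show ((3 : ℕ) : ℤ) - 4 - 1 = -2 by norm_num] at hu hux
  have hu2 : u 2 ∈ X.gr 2 0 := by
    have := (hu 2).1
    rwa [show (4 : ℤ) + -2 - ((2 : ℕ) : ℤ) = 0 by norm_num] at this
  have hu0 : u 0 = 0 := by
    apply (hu 0).2
    rintro ⟨h7, -⟩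
    norm_num at h7
  have hu4 : u 4 = 0 := X.eq_zero_of_lt (by norm_num) _
  refine ⟨u 2, hu2, ?_, ?_⟩
  · have h7 := congrFun hux 3
    rw [X.diff_apply, X.cut_of (inCol _ _ (by norm_num) (by norm_num)), Pi.add_apply,
      X.gysC_apply, Pi.single_eq_of_ne (by norm_num)] at h7
    have h8 : X.resC u 3 + X.gys 3 (u 4) = 0 := h7
    rw [hu4, map_zero, add_zero] at h8
    exact h8
  · have h7 := congrFun hux 1
    rw [X.diff_apply, X.cut_of (inCol _ _ (by norm_num) (by norm_num)), Pi.add_apply,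
      X.gysC_apply, Pi.single_eq_same] at h7
    have h8 : X.res 0 (u 0) + X.gys 1 (u 2) = X.res 0 y := h7
    rw [hu0, map_zero] at h8
    have h9 : (0 : X.H 1) + X.gys 1 (u 2) = X.gys 1 (u 2) := zero_add _
    exact (h9.symm.trans h8).symm

end necessary

end Pool.Agent.W2helper44.MW
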