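import Pool.Agent.W2helper44.MW.Crit

/-!
# Threefolds: the expected dimension
-/

namespace Pool.Agent.W2helper44.MW

universe u v

open Module Pool.Agent.Y143 Pool.Agent.X302.MW

variable {Ω : Type u} [Field Ω] [CharZero Ω] {Γ : Type} {n q : ℕ}

section general

variable (X : SpecialFibre.{u, v} Ω Γ n q)

/-- A term of the spectral sequence with only one component. -/
lemma E₁_single {r w m : ℤ} {a₀ : ℕ} (hc : InColumn r a₀) (hm : m = w + r - a₀)
    (h : ∀ a : ℕ, a ≠ a₀ → InColumn r a → X.gr a (w + r - a) = ⊥) :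
    X.E₁ r w = (X.gr a₀ m).map (LinearMap.single Ω X.H a₀) := by
  subst hm
  apply le_antisymm
  · intro x hx
    refine ⟨x a₀, (hx a₀).1, ?_⟩
    funext b
    show (Pi.single a₀ (x a₀) : X.C) b = x b
    by_cases hb : b = a₀
    · subst hb
      rw [Pi.single_eq_same]
    · rw [Pi.single_eq_of_ne hb]
      by_cases hcb : InColumn r b
      · have h1 := (hx b).1
        rw [h b hb hcb, Submodule.mem_bot] at h1
        exact h1.symm
      · exact ((hx b).2 hcb).symm
  · rintro _ ⟨z, hz, rfl⟩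
    exact X.single_mem hc hz

lemma finrank_E₁_single {r w m : ℤ} {a₀ : ℕ} (hc : InColumn r a₀) (hm : m = w + r - a₀)
    (h : ∀ a : ℕ, a ≠ a₀ → InColumn r a → X.gr a (w + r - a) = ⊥) :
    finrank Ω (X.E₁ r w) = finrank Ω (X.gr a₀ m) := by
  rw [E₁_single X hc hm h]
  have h1 := finrank_map_add_ker (LinearMap.single Ω X.H a₀) (X.gr a₀ m)
  have h2 : X.gr a₀ m ⊓ LinearMap.ker (LinearMap.single Ω X.H a₀) = ⊥ := by
    rw [eq_bot_iff]
    rintro z ⟨-, hz⟩
    have h3 : (Pi.single a₀ z : X.C) = 0 := hz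
    have h4 := congrFun h3 a₀
    rw [Pi.single_eq_same] at h4
    exact h4
  rw [h2, finrank_bot] at h1
  exact_mod_cast h1

lemma E₁_eq_bot {r w : ℤ} (h : ∀ a : ℕ, InColumn r a → X.gr a (w + r - a) = ⊥) :
    X.E₁ r w = ⊥ := by
  rw [eq_bot_iff]
  intro x hx
  rw [Submodule.mem_bot]
  funext b
  by_cases hcb : InColumn r b
  · have h1 := (hx b).1
    rw [h b hcb, Submodule.mem_bot] at h1
    exact h1
  · exact (hx b).2 hcb

lemma coboundaries_eq_bot {r w : ℤ}
    (h : ∀ a : ℕ, InColumn (r - 1) a → X.gr a (w + (r - 1) - a) = ⊥) :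
    X.coboundaries r w = ⊥ := by
  show (X.E₁ (r - 1) w).map (X.diff (r - 1)) = ⊥
  rw [E₁_eq_bot X h, Submodule.map_bot]

/-- The classes in `H^2(Y^(1))` whose restriction is the Gysin image of an element of `H^0(Y^(3))`
with vanishing restriction. -/
def W0 : Submodule Ω (X.H 0) :=
  X.gr 0 2 ⊓ ((X.gr 2 0 ⊓ LinearMap.ker (X.res 2)).map (X.gys 1)).comap (X.res 0)

lemma mem_W0 {y : X.H 0} : y ∈ W0 X ↔
    y ∈ X.gr 0 2 ∧ ∃ v ∈ X.gr 2 0, X.res 2 v = 0 ∧ X.res 0 y = X.gys 1 v := by
  constructor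
  · rintro ⟨h1, v, ⟨hv, hv'⟩, h2⟩
    exact ⟨h1, v, hv, hv', h2.symm⟩
  · rintro ⟨h1, v, hv, hv', h2⟩
    exact ⟨h1, v, ⟨hv, hv'⟩, h2.symm⟩

end general

section three

variable (X : SpecialFibre.{u, v} Ω Γ 3 q)

/-- The components of a cocycle in `E_1^(0, 2)`. -/
lemma cocycle_zero_two {x : X.C} (hx : x ∈ X.cocycles 0 2) :
    x 0 ∈ X.gr 0 2 ∧ x 2 ∈ X.gr 2 0 ∧ X.res 0 (x 0) + X.gys 1 (x 2) = 0 ∧ X.res 2 (x 2) = 0 ∧
      ∀ a, a ≠ 0 → a ≠ 2 → x a = 0 := by
  obtain ⟨h1, h2⟩ := hx
  rw [SetLike.mem_coe, LinearMap.mem_ker] at h2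
  have h4 : x 4 = 0 := X.eq_zero_of_lt (by norm_num) _
  refine ⟨?_, ?_, ?_, ?_, ?_⟩
  · have := (h1 0).1
    rwa [show (2 : ℤ) + 0 - ((0 : ℕ) : ℤ) = 2 by norm_num] at this
  · have := (h1 2).1
    rwa [show (2 : ℤ) + 0 - ((2 : ℕ) : ℤ) = 0 by norm_num] at this
  · have h3 := congrFun h2 1
    rw [X.diff_apply, X.cut_of (inCol _ _ (by norm_num) (by norm_num))] at h3
    exact h3
  · have h3 := congrFun h2 3
    rw [X.diff_apply, X.cut_of (inCol _ _ (by norm_num) (by norm_num))] at h3
    have h5 : X.res 2 (x 2) + X.gys 3 (x 4) = 0 := h3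
    rw [h4, map_zero, add_zero] at h5
    exact h5
  · intro a ha0 ha2
    by_cases hc : InColumn 0 a
    · have := hc.2
      exact X.eq_zero_of_lt (by omega) _
    · exact (h1 a).2 hc

lemma mem_cocycles_zero_two {x : X.C} (h0 : x 0 ∈ X.gr 0 2) (h2 : x 2 ∈ X.gr 2 0)
    (h02 : X.res 0 (x 0) + X.gys 1 (x 2) = 0) (hr : X.res 2 (x 2) = 0)
    (ha : ∀ a, a ≠ 0 → a ≠ 2 → x a = 0) : x ∈ X.cocycles 0 2 := by
  constructor
  · intro a
    by_cases ha0 : a = 0
    · subst ha0
      refine ⟨?_, fun h => absurd (inCol _ _ (by norm_num) (by norm_num)) h⟩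
      rwa [show (2 : ℤ) + 0 - ((0 : ℕ) : ℤ) = 2 by norm_num]
    · by_cases ha2 : a = 2
      · subst ha2
        refine ⟨?_, fun h => absurd (inCol _ _ (by norm_num) (by norm_num)) h⟩
        rwa [show (2 : ℤ) + 0 - ((2 : ℕ) : ℤ) = 0 by norm_num]
      · rw [ha a ha0 ha2]
        exact ⟨Submodule.zero_mem _, fun _ => rfl⟩
  · rw [SetLike.mem_coe, LinearMap.mem_ker]
    funext b
    rw [X.diff_apply]
    by_cases hc : InColumn (0 + 1) b
    · rw [X.cut_of hc, Pi.add_apply, X.gysC_apply]
      cases b with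
      | zero =>
        have := hc.1
        rw [zero_add, abs_one] at this
        norm_num at this
      | succ b =>
        rw [X.resC_succ]
        by_cases hb0 : b = 0
        · subst hb0
          exact h02
        · by_cases hb2 : b = 2
          · subst hb2
            have h4 : x (2 + 1 + 1) = 0 := ha _ (by norm_num) (by norm_num)
            rw [h4, map_zero, add_zero, hr]
            rfl
          · have := hc.2
            rw [ha b hb0 hb2, map_zero, zero_add, ha (b + 1 + 1) (by omega) (by omega), map_zero]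
            rfl
    · rw [X.cut_of_not hc]
      rfl

lemma cocycle_neg_two_four {x : X.C} : x ∈ X.cocycles (-2) 4 ↔
    x ∈ X.cocycles 0 2 ∧ x 0 = 0 := by
  constructor
  · rintro ⟨h1, h2⟩
    rw [SetLike.mem_coe, LinearMap.mem_ker] at h2
    have h0 : x 0 = 0 := (h1 0).2 (by
      rintro ⟨h, -⟩
      norm_num at h)
    have h4 : x 4 = 0 := X.eq_zero_of_lt (by norm_num) _
    refine ⟨mem_cocycles_zero_two X ?_ ?_ ?_ ?_ ?_, h0⟩
    · rw [h0]
      exact Submodule.zero_mem _
    · have := (h1 2).1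
      rwa [show (4 : ℤ) + -2 - ((2 : ℕ) : ℤ) = 0 by norm_num] at this
    · have h3 := congrFun h2 1
      rw [X.diff_apply, X.cut_of (inCol _ _ (by norm_num) (by norm_num))] at h3
      exact h3
    · have h3 := congrFun h2 3
      rw [X.diff_apply, X.cut_of (inCol _ _ (by norm_num) (by norm_num))] at h3
      have h5 : X.res 2 (x 2) + X.gys 3 (x 4) = 0 := h3
      rw [h4, map_zero, add_zero] at h5
      exact h5
    · intro a ha0 ha2
      by_cases hc : InColumn (-2) a
      · have h7 := hc.2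
        have h8 := hc.1
        rw [abs_neg, abs_of_nonneg (by norm_num)] at h8
        exact X.eq_zero_of_lt (by omega) _
      · exact (h1 a).2 hc
  · rintro ⟨h, h0⟩
    obtain ⟨h1, h2, h3, h4, h5⟩ := cocycle_zero_two X h
    rw [h0, map_zero] at h3
    constructor
    · intro a
      by_cases ha2 : a = 2
      · subst ha2
        refine ⟨?_, fun h => absurd (inCol _ _ (by norm_num) (by norm_num)) h⟩
        rwa [show (4 : ℤ) + -2 - ((2 : ℕ) : ℤ) = 0 by norm_num]
      · have ha : x a = 0 := by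
          by_cases ha0 : a = 0
          · subst ha0
            exact h0
          · exact h5 a ha0 ha2
        rw [ha]
        exact ⟨Submodule.zero_mem _, fun _ => rfl⟩
    · rw [SetLike.mem_coe, LinearMap.mem_ker]
      funext b
      rw [X.diff_apply]
      by_cases hc : InColumn (-2 + 1) b
      · rw [X.cut_of hc, Pi.add_apply, X.gysC_apply]
        have hc2 := hc.2
        cases b with
        | zero => exact absurd hc2 (by norm_num)
        | succ b =>
          rw [X.resC_succ]
          by_cases hb0 : b = 0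
          · subst hb0
            rw [h0, map_zero]
            exact h3
          · by_cases hb2 : b = 2
            · subst hb2
              rw [h5 (2 + 1 + 1) (by norm_num) (by norm_num), map_zero, add_zero, h4]
              rfl
            · rw [h5 b hb0 hb2, map_zero, zero_add, h5 (b + 1 + 1) (by omega) (by omega), map_zero]
              rfl
      · rw [X.cut_of_not hc]
        rfl

lemma finrank_W0 :
    finrank Ω (W0 X) + finrank Ω (X.cocycles (-2) 4) = finrank Ω (X.cocycles 0 2) := by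
  classical
  have h1 := finrank_map_add_ker (LinearMap.proj 0 : X.C →ₗ[Ω] X.H 0) (X.cocycles 0 2)
  have h2 : (X.cocycles 0 2).map (LinearMap.proj 0 : X.C →ₗ[Ω] X.H 0) = W0 X := by
    ext y
    rw [mem_W0]
    constructor
    · rintro ⟨x, hx, rfl⟩
      obtain ⟨h1, h2, h3, h4, -⟩ := cocycle_zero_two X hx
      refine ⟨h1, -(x 2), Submodule.neg_mem _ h2, ?_, ?_⟩
      · rw [map_neg, h4, neg_zero]
      · rw [map_neg]
        exact eq_neg_of_add_eq_zero_left h3
    · rintro ⟨hy, v, hv, hv', hyv⟩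
      refine ⟨Pi.single 0 y + Pi.single 2 (-v), ?_, ?_⟩
      · have e0 : (Pi.single 0 y + Pi.single 2 (-v) : X.C) 0 = y := by
          rw [Pi.add_apply, Pi.single_eq_same, Pi.single_eq_of_ne (i := 2) (i' := 0) (by norm_num),
            add_zero]
        have e2 : (Pi.single 0 y + Pi.single 2 (-v) : X.C) 2 = -v := by
          rw [Pi.add_apply, Pi.single_eq_same, Pi.single_eq_of_ne (i := 0) (i' := 2) (by norm_num),
            zero_add]
        apply mem_cocycles_zero_two
        · rw [e0]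
          exact hy
        · rw [e2]
          exact Submodule.neg_mem _ hv
        · rw [e0, e2, map_neg, hyv, add_neg_cancel]
        · rw [e2, map_neg, hv', neg_zero]
        · intro a ha0 ha2
          rw [Pi.add_apply, Pi.single_eq_of_ne ha0, Pi.single_eq_of_ne ha2, add_zero]
      · show (Pi.single 0 y + Pi.single 2 (-v) : X.C) 0 = y
        rw [Pi.add_apply, Pi.single_eq_same, Pi.single_eq_of_ne (i := 2) (i' := 0) (by norm_num),
          add_zero]
  have h3 : X.cocycles 0 2 ⊓ LinearMap.ker (LinearMap.proj 0 : X.C →ₗ[Ω] X.H 0) =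
      X.cocycles (-2) 4 := by
    ext x
    rw [cocycle_neg_two_four]
    rfl
  rw [h2, h3] at h1
  exact h1

lemma finrank_cob_zero_two :
    finrank Ω (X.coboundaries 0 2) + finrank Ω (X.cocycles (-1) 2) = finrank Ω (X.gr 1 0) := by
  have h1 := finrank_map_add_ker (X.diff (-1)) (X.E₁ (-1) 2)
  have h2 : finrank Ω (X.E₁ (-1) 2) = finrank Ω (X.gr 1 0) := by
    apply finrank_E₁_single X (inCol _ _ (by norm_num) (by norm_num)) (by norm_num)
    intro a ha hc
    apply X.gr_eq_bot
    left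
    have h7 := hc.2
    have h8 := hc.1
    rw [abs_neg, abs_one] at h8
    omega
  rw [h2] at h1
  exact h1

lemma finrank_ker_res :
    finrank Ω (X.cocycles 0 0) = finrank Ω (X.gr 0 0 ⊓ LinearMap.ker (X.res 0) : Submodule Ω _) := by
  classical
  have h1 := finrank_map_add_ker (LinearMap.single Ω X.H 0)
    (X.gr 0 0 ⊓ LinearMap.ker (X.res 0) : Submodule Ω _)
  have h2 : (X.gr 0 0 ⊓ LinearMap.ker (X.res 0) : Submodule Ω _) ⊓
      LinearMap.ker (LinearMap.single Ω X.H 0) = ⊥ := by
    rw [eq_bot_iff]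
    rintro z ⟨-, hz⟩
    have h3 : (Pi.single 0 z : X.C) = 0 := hz
    have h4 := congrFun h3 0
    rw [Pi.single_eq_same] at h4
    exact h4
  have h3 : (X.gr 0 0 ⊓ LinearMap.ker (X.res 0) : Submodule Ω _).map
      (LinearMap.single Ω X.H 0) = X.cocycles 0 0 := by
    apply le_antisymm
    · rintro _ ⟨z, ⟨hz, hz'⟩, rfl⟩
      refine ⟨X.single_mem (inCol _ _ (by norm_num) (by norm_num)) (by simpa using hz), ?_⟩
      rw [SetLike.mem_coe, LinearMap.mem_ker]
      show X.diff 0 (Pi.single 0 z : X.C) = 0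
      rw [diff_single0, show X.res 0 z = 0 from hz', Pi.single_zero]
    · rintro x ⟨hx, hx'⟩
      have h4 : x = Pi.single 0 (x 0) := by
        funext b
        by_cases hb : b = 0
        · subst hb
          rw [Pi.single_eq_same]
        · rw [Pi.single_eq_of_ne hb]
          have h5 := (hx b).1
          rw [X.gr_eq_bot b _ (Or.inl (by omega)), Submodule.mem_bot] at h5
          exact h5
      refine ⟨x 0, ⟨by simpa using (hx 0).1, ?_⟩, h4.symm⟩
      rw [SetLike.mem_coe, LinearMap.mem_ker, h4, diff_single0] at hx'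
      have h5 := congrFun hx' 1
      rw [Pi.single_eq_same] at h5
      exact h5
  rw [h2, h3, finrank_bot] at h1
  exact_mod_cast h1

end three

section model

variable (X : SemistableModel.{u, v} Ω Γ 3 q)

/-- The dimension of `W0`. -/
lemma finrank_W0_eq :
    finrank Ω (W0 X.toSpecialFibre) + finrank Ω (X.W 2 1) + finrank Ω (X.W 2 4) +
        finrank Ω (X.W 1 2) =
      finrank Ω (X.W 2 2) + finrank Ω (X.gr 1 0) + finrank Ω (X.W 2 3) + finrank Ω (X.W 1 1) := by
  have a1 := finrank_W0 X.toSpecialFibre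
  have a2 := finrank_cob_zero_two X.toSpecialFibre
  have b1 := finrank_gr X 2 2
  have b2 := finrank_gr X 1 2
  have b3 := finrank_gr X 2 4
  rw [show ((2 : ℕ) : ℤ) - 2 = 0 by norm_num, show (2 : ℤ) - 1 = 1 by norm_num] at b1
  rw [show ((1 : ℕ) : ℤ) - 2 = -1 by norm_num, show (2 : ℤ) - 1 = 1 by norm_num] at b2
  rw [show ((2 : ℕ) : ℤ) - 4 = -2 by norm_num, show (4 : ℤ) - 1 = 3 by norm_num] at b3
  have c1 : X.coboundaries (-1) 2 = ⊥ := by
    apply coboundaries_eq_bot
    intro a hc
    apply X.gr_eq_bot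
    left
    have h8 := hc.1
    rw [show |(-1 : ℤ) - 1| = 2 by norm_num] at h8
    omega
  have c2 : X.coboundaries (-2) 4 = ⊥ := by
    apply coboundaries_eq_bot
    intro a hc
    apply X.gr_eq_bot
    left
    have h8 := hc.1
    rw [show |(-2 : ℤ) - 1| = 3 by norm_num] at h8
    omega
  rw [c1, finrank_bot] at b2
  rw [c2, finrank_bot] at b3
  omega

/-- The dimension of the kernel of the restriction on `H^0`. -/
lemma finrank_ker_res_eq :
    finrank Ω (X.gr 0 0 ⊓ LinearMap.ker (X.res 0) : Submodule Ω _) + finrank Ω (X.W 0 (-1)) =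
      finrank Ω (X.W 0 0) := by
  have a1 := finrank_ker_res X.toSpecialFibre
  have b1 := finrank_gr X 0 0
  rw [show ((0 : ℕ) : ℤ) - 0 = 0 by norm_num, show (0 : ℤ) - 1 = -1 by norm_num] at b1
  have c1 : X.coboundaries 0 0 = ⊥ := by
    apply coboundaries_eq_bot
    intro a hc
    apply X.gr_eq_bot
    left
    omega
  rw [c1, finrank_bot] at b1
  omega

end model

end Pool.Agent.W2helper44.MW
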