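import Pool.Agent.W2helper44.MW.Trans

/-!
# The monodromy-weight conjecture for threefolds: criterion and independence of the theory
-/

namespace Pool.Agent.W2helper44.MW

universe u v u' v'

open Module Pool.Agent.Y143 Pool.Agent.X302.MW

section

variable {Ω : Type u} [Field Ω] [CharZero Ω] {Γ : Type} {q : ℕ}

lemma finrank_P_eq {X : Degeneration.{u, v} Ω Γ 3 q} (A : DivisorClasses X.toSpecialFibre) :
    (finrank Ω (P X.toSpecialFibre) : ℤ) = expected X.toSemistableModel := by
  have a1 := finrank_P A
  have a2 := finrank_W0_eq X.toSemistableModel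
  have a3 := finrank_ker_res_eq X.toSemistableModel
  unfold expected grDim dimH0 dimOf
  rw [show (2 : ℤ) - 1 = 1 by norm_num, show (4 : ℤ) - 1 = 3 by norm_num,
    show (0 : ℤ) - 1 = -1 by norm_num]
  omega

variable [IsAlgClosed Ω]

/-- The monodromy-weight conjecture for a threefold is equivalent to the critical condition. -/
theorem mw_iff_crit (hq : 1 < q) (X : Degeneration.{u, v} Ω Γ 3 q)
    (A : DivisorClasses X.toSpecialFibre) :
    WeightMonodromy X.toSemistableModel ↔ Crit X.toSpecialFibre :=
  ⟨fun h => crit_of_mw X.toSemistableModel rfl hq (h 3), fun h k => mw_of_crit X rfl A h k⟩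

/-- Only `H^3` matters. -/
theorem mw_iff_three (hq : 1 < q) (X : Degeneration.{u, v} Ω Γ 3 q)
    (A : DivisorClasses X.toSpecialFibre) :
    WeightMonodromy X.toSemistableModel ↔
      IsMWPure q (3 : ℕ) (X.actV 3 X.frob) (X.N 3) :=
  ⟨fun h => h 3, fun h k => mw_of_crit X rfl A (crit_of_mw X.toSemistableModel rfl hq h) k⟩

/-- **The criterion.** -/
theorem mw_iff (hq : 1 < q) (X : Degeneration.{u, v} Ω Γ 3 q)
    (A : DivisorClasses X.toSpecialFibre) {T : EndH2 X.toSpecialFibre}
    (hT : IsTransform X.toSpecialFibre T) :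
    WeightMonodromy X.toSemistableModel ↔
      ((charpolyH2 X.toSpecialFibre T).rootMultiplicity 0 : ℤ) = expected X.toSemistableModel := by
  have h1 : (charpolyH2 X.toSpecialFibre T).rootMultiplicity 0 =
      finrank Ω (T.maxGenEigenspace 0) := (LinearMap.finrank_maxGenEigenspace_eq T 0).symm
  rw [mw_iff_crit hq X A, crit_iff hT A, ← finrank_P_eq A, h1]
  exact Int.natCast_inj.symm

end

section

variable {Ω : Type u} [Field Ω] [CharZero Ω] [IsAlgClosed Ω] {Γ : Type} {Ω' : Type u'} [Field Ω']
  [CharZero Ω'] [IsAlgClosed Ω'] {Γ' : Type} {q : ℕ}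

omit [IsAlgClosed Ω] [IsAlgClosed Ω'] in
lemma rootMultiplicity_eq {f : Polynomial Ω} {f' : Polynomial Ω'} (h : SameRational f f') :
    f.rootMultiplicity 0 = f'.rootMultiplicity 0 := by
  obtain ⟨P, h1, h2⟩ := h
  rw [h1, h2]
  have e1 := Polynomial.eq_rootMultiplicity_map (p := P) (algebraMap ℚ Ω).injective 0
  have e2 := Polynomial.eq_rootMultiplicity_map (p := P) (algebraMap ℚ Ω').injective 0
  rw [map_zero] at e1 e2
  rw [← e1, ← e2]

/-- **Independence of the theory.** -/
theorem mw_indep (hq : 1 < q) (X : Degeneration.{u, v} Ω Γ 3 q)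
    (A : DivisorClasses X.toSpecialFibre) {T : EndH2 X.toSpecialFibre}
    (hT : IsTransform X.toSpecialFibre T) (X' : Degeneration.{u', v'} Ω' Γ' 3 q)
    (A' : DivisorClasses X'.toSpecialFibre) {T' : EndH2 X'.toSpecialFibre}
    (hT' : IsTransform X'.toSpecialFibre T')
    (hD : SameDimensions X.toSemistableModel X'.toSemistableModel)
    (hC : SameRational (charpolyH2 X.toSpecialFibre T) (charpolyH2 X'.toSpecialFibre T')) :
    WeightMonodromy X.toSemistableModel ↔ WeightMonodromy X'.toSemistableModel := by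
  rw [mw_iff hq X A hT, mw_iff hq X' A' hT', rootMultiplicity_eq hC]
  have h1 : expected X.toSemistableModel = expected X'.toSemistableModel := by
    unfold expected
    rw [hD.generic 2 2 le_rfl, hD.generic 2 4 le_rfl, hD.generic 1 2 (by norm_num),
      hD.generic 0 0 (by norm_num), hD.components 0, hD.components 1]
  rw [h1]

end

end Pool.Agent.W2helper44.MW
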