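import Pool.Agent.X302.MW.SDefs

/-!
# Frobenius eigenvalues on the cohomology of the generic fibre
-/

namespace Pool.Agent.W2helper44.MW

universe u v

open Module Pool.Agent.Y143 Pool.Agent.X302.MW

/-- The dimension of the generalized eigenspace of an operator. -/
noncomputable def multOf {Ω : Type u} [Field Ω] {V : Type v} [AddCommGroup V] [Module Ω V]
    (F : Module.End Ω V) (α : Ω) : ℕ := finrank Ω (F.maxGenEigenspace α)

/-- The multiplicity of a non-Tate number as an eigenvalue of the Frobenius on `H^k` of the geometric
generic fibre in the first theory is at most the multiplicity of its conjugates in the second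
theory. This is the case if the characteristic polynomials of the Frobenius on `H^k` in the two
theories are equal and have rational coefficients, or if all the eigenvalues in the first theory are
Tate numbers (products of `q` and roots of unity). -/
def GenericFrobeniusLE {Ω : Type*} [Field Ω] [CharZero Ω] {Γ : Type} {Ω' : Type*} [Field Ω']
    [CharZero Ω'] {Γ' : Type} {n q : ℕ} (X : SemistableModel Ω Γ n q)
    (X' : SemistableModel Ω' Γ' n q) (k : ℕ) : Prop :=
  ∀ (α : Ω) (α' : Ω'), AreConjugate α α' → ¬ IsTateNumber q α →
    multOf (X.actV k X.frob) α ≤ multOf (X'.actV k X'.frob) α'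

end Pool.Agent.W2helper44.MW
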