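import Pool.Agent.X302.MW.Three
import Pool.Agent.W2helper44.MW.Dims
import Pool.Agent.W2helper44.MW.PDefs

/-!
# The multiplicity of a non-Tate eigenvalue on `H^2` of the generic fibre of a threefold
-/

namespace Pool.Agent.W2helper44.MW

universe u v

open Module Pool.Agent.Y143 Pool.Agent.X302.MW

section linear

variable {Ω : Type*} [Field Ω] {E E' : Type*} [AddCommGroup E] [Module Ω E]
  [AddCommGroup E'] [Module Ω E']

/-- The components of a generalized eigenvector of a product operator. -/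
lemma mem_gen_prod {F : Module.End Ω E} {F' : Module.End Ω E'} {α : Ω} {v : E} {x : E'} :
    (v, x) ∈ Module.End.maxGenEigenspace (LinearMap.prodMap F F') α ↔
      v ∈ F.maxGenEigenspace α ∧ x ∈ F'.maxGenEigenspace α := by
  have key : ∀ (k : ℕ) (v : E) (x : E'),
      (((F.prodMap F' : Module.End Ω (E × E')) - α • (1 : Module.End Ω (E × E'))) ^ k) (v, x) =
      (((F - α • (1 : Module.End Ω E)) ^ k) v, ((F' - α • (1 : Module.End Ω E')) ^ k) x) := by
    intro k
    induction k with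
    | zero => intro v x; rfl
    | succ k ih =>
      intro v x
      rw [pow_succ, Module.End.mul_apply]
      have h1 : ((F.prodMap F' : Module.End Ω (E × E')) - α • (1 : Module.End Ω (E × E'))) (v, x) =
          ((F - α • (1 : Module.End Ω E)) v, (F' - α • (1 : Module.End Ω E')) x) := rfl
      rw [h1, ih, pow_succ, Module.End.mul_apply, pow_succ, Module.End.mul_apply]
  simp only [Module.End.mem_maxGenEigenspace]
  constructor
  · rintro ⟨k, hk⟩
    rw [key] at hk
    exact ⟨⟨k, congrArg Prod.fst hk⟩, ⟨k, congrArg Prod.snd hk⟩⟩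
  · rintro ⟨⟨k, hk⟩, ⟨l, hl⟩⟩
    refine ⟨k + l, ?_⟩
    rw [key, pow_add (F' - α • (1 : Module.End Ω E')), Module.End.mul_apply, hl, map_zero,
      add_comm k l, pow_add, Module.End.mul_apply, hk, map_zero]
    exact Prod.mk_zero_zero

variable [IsAlgClosed Ω] [FiniteDimensional Ω E] [FiniteDimensional Ω E']

/-- Projection of an element of a stable relation to a generalized eigenspace, when the first
component already belongs to it. -/
lemma exists_snd {F : Module.End Ω E} {F' : Module.End Ω E'} {S : Submodule Ω (E × E')}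
    (hS : ∀ v x, (v, x) ∈ S → (F v, F' x) ∈ S) {α : Ω} {v : E} {x : E'} (h : (v, x) ∈ S)
    (hv : v ∈ F.maxGenEigenspace α) : ∃ x' ∈ F'.maxGenEigenspace α, (v, x') ∈ S := by
  set G : Module.End Ω (E × E') := F.prodMap F' with hG
  have hc : ∀ (_ _ : Unit), Commute ((fun _ : Unit => G) ()) ((fun _ : Unit => G) ()) :=
    fun _ _ => Commute.refl _
  let f : Module.End Ω (E × E') := LinearMap.inl Ω E E' ∘ₗ LinearMap.fst Ω E E'
  have h1 := prj_equiv (T := fun _ : Unit => G) (T' := fun _ : Unit => G) hc hc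
    (c := fun _ => 1) (fun _ => one_ne_zero) f (fun g y => by
      rw [one_smul]
      show (F y.1, F' 0) = (F y.1, 0)
      rw [map_zero]) (fun _ => α) (v, x)
  have h2 : prj (fun _ : Unit => G) hc (fun _ => α) (v, x) ∈ S :=
    prj_stable (p := S) hc (fun _ y hy => hS y.1 y.2 hy) _ h
  have h3 := prj_mem (T := fun _ : Unit => G) hc (fun _ => α) (v, x)
  have h4 : f (v, x) ∈ Wt (fun _ : Unit => G) (fun _ => α) := by
    unfold Wt
    rw [Submodule.mem_iInf]
    intro _
    show (v, (0 : E')) ∈ _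
    rw [hG, mem_gen_prod]
    exact ⟨hv, Submodule.zero_mem _⟩
  simp only [one_mul] at h1
  rw [prj_of_mem hc h4] at h1
  set e := prj (fun _ : Unit => G) hc (fun _ => α) (v, x) with he
  have h5 : e.1 = v := (congrArg Prod.fst h1).symm
  have h6 : e ∈ G.maxGenEigenspace α := by
    unfold Wt at h3
    rw [Submodule.mem_iInf] at h3
    exact h3 ()
  have h7 : (e.1, e.2) ∈ G.maxGenEigenspace α := h6
  rw [hG, mem_gen_prod] at h7
  refine ⟨e.2, h7.2, ?_⟩
  rw [← h5]
  exact h2

lemma exists_fst {F : Module.End Ω E} {F' : Module.End Ω E'} {S : Submodule Ω (E × E')}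
    (hS : ∀ v x, (v, x) ∈ S → (F v, F' x) ∈ S) {α : Ω} {v : E} {x : E'} (h : (v, x) ∈ S)
    (hx : x ∈ F'.maxGenEigenspace α) : ∃ v' ∈ F.maxGenEigenspace α, (v', x) ∈ S := by
  set G : Module.End Ω (E × E') := F.prodMap F' with hG
  have hc : ∀ (_ _ : Unit), Commute ((fun _ : Unit => G) ()) ((fun _ : Unit => G) ()) :=
    fun _ _ => Commute.refl _
  let f : Module.End Ω (E × E') := LinearMap.inr Ω E E' ∘ₗ LinearMap.snd Ω E E'
  have h1 := prj_equiv (T := fun _ : Unit => G) (T' := fun _ : Unit => G) hc hc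
    (c := fun _ => 1) (fun _ => one_ne_zero) f (fun g y => by
      rw [one_smul]
      show (F 0, F' y.2) = (0, F' y.2)
      rw [map_zero]) (fun _ => α) (v, x)
  have h2 : prj (fun _ : Unit => G) hc (fun _ => α) (v, x) ∈ S :=
    prj_stable (p := S) hc (fun _ y hy => hS y.1 y.2 hy) _ h
  have h3 := prj_mem (T := fun _ : Unit => G) hc (fun _ => α) (v, x)
  have h4 : f (v, x) ∈ Wt (fun _ : Unit => G) (fun _ => α) := by
    unfold Wt
    rw [Submodule.mem_iInf]
    intro _
    show ((0 : E), x) ∈ _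
    rw [hG, mem_gen_prod]
    exact ⟨Submodule.zero_mem _, hx⟩
  simp only [one_mul] at h1
  rw [prj_of_mem hc h4] at h1
  set e := prj (fun _ : Unit => G) hc (fun _ => α) (v, x) with he
  have h5 : e.2 = x := (congrArg Prod.snd h1).symm
  have h6 : e ∈ G.maxGenEigenspace α := by
    unfold Wt at h3
    rw [Submodule.mem_iInf] at h3
    exact h3 ()
  have h7 : (e.1, e.2) ∈ G.maxGenEigenspace α := h6
  rw [hG, mem_gen_prod] at h7
  refine ⟨e.1, h7.1, ?_⟩
  rw [← h5]
  exact h2

end linear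

section filt

variable {Ω : Type u} [Field Ω] [CharZero Ω] {V : Type v} [AddCommGroup V]
  [Module Ω V] [FiniteDimensional Ω V] {q : ℕ}

omit [FiniteDimensional Ω V] in
/-- Generalized eigenvectors for a Weil number of weight `w` belong to `F w`. -/
lemma IsWeightFilt.gen_le (hq : 1 < q) {Φ : Module.End Ω V} {F : ℤ → Submodule Ω V}
    (hF : IsWeightFilt q Φ F) {w : ℤ} {α : Ω} (hα : IsWeilNumber q w α) :
    Φ.maxGenEigenspace α ≤ F w := by
  intro v hv
  by_contra hcon
  obtain ⟨y, -, hy, hyα⟩ := exists_eigen_mod Φ α (Z := ⊤) (B := F w)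
    (fun _ _ => Submodule.mem_top) Submodule.mem_top hcon hv
  obtain ⟨t, ht⟩ := hF.top
  have hyt : y ∈ F t := by rw [ht]; exact Submodule.mem_top
  have hy0 : y ≠ 0 := by
    rintro rfl
    exact hy (Submodule.zero_mem _)
  obtain ⟨u, -, hyu, hyu'⟩ := exists_degree hF.mono hF.bot hyt hy0
  have hwu : w < u := by
    by_contra h
    exact hy (hF.mono (not_lt.1 h) hyu)
  have h1 := hF.weil u α y hyu hyu' (hF.mono (by omega) hyα)
  have := weight_unique hq h1 hα
  omega

omit [FiniteDimensional Ω V] in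
/-- Generalized eigenvectors for a Weil number of weight `w` meet `F (w - 1)` in zero. -/
lemma IsWeightFilt.gen_inf (hq : 1 < q) {Φ : Module.End Ω V} {F : ℤ → Submodule Ω V}
    (hF : IsWeightFilt q Φ F) {w : ℤ} {α : Ω} (hα : IsWeilNumber q w α) {v : V}
    (hv : v ∈ Φ.maxGenEigenspace α) (hv' : v ∈ F (w - 1)) : v = 0 := by
  by_contra hcon
  obtain ⟨y, hy, hy0, hyα⟩ := exists_eigen_mod Φ α (Z := F (w - 1)) (B := ⊥)
    (fun x hx => hF.stable _ x hx) hv' (by simpa using hcon) hv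
  have hy0' : y ≠ 0 := by simpa using hy0
  have hyα' : Φ y - α • y = 0 := by simpa using hyα
  obtain ⟨u, hu, hyu, hyu'⟩ := exists_degree hF.mono hF.bot hy hy0'
  have h1 := hF.weil u α y hyu hyu' (by rw [hyα']; exact Submodule.zero_mem _)
  have := weight_unique hq h1 hα
  omega

end filt

section threefold

variable {Ω : Type u} [Field Ω] [CharZero Ω] [IsAlgClosed Ω] {Γ : Type} {q : ℕ}
  (X : SemistableModel.{u, v} Ω Γ 3 q)

omit [IsAlgClosed Ω] in
/-- There are no classes in `H^0` of the strata with eigenvalue `α / q`, for `α` not Tate. -/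
lemma h0_zero (hI : HasIntegralFrobenius X.toSpecialFibre) {α : Ω} (hα : ¬ IsTateNumber q α)
    (a : ℕ) {x : X.H a} (hx : x ∈ X.gr a 0)
    (hx' : x ∈ (X.act a X.frob).maxGenEigenspace ((q : Ω)⁻¹ * α)) : x = 0 := by
  have hq : (q : Ω) ≠ 0 := Nat.cast_ne_zero.2 X.q_ne
  by_contra hne
  obtain ⟨-, k, hk, hk'⟩ := h0_root X.toSpecialFibre hI a ⟨hx, hx'⟩ hne
  exact hα (isTate_of_root hq hk hk')

/-- There are no coboundaries in `E_1^(0, 2)` with eigenvalue `α`, for `α` not Tate. -/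
lemma cob_zero (hI : HasIntegralFrobenius X.toSpecialFibre) {α : Ω} (hα : ¬ IsTateNumber q α)
    {x : X.C} (hx : x ∈ X.coboundaries 0 2)
    (hx' : x ∈ Module.End.maxGenEigenspace (X.actC 0 X.frob) α) : x = 0 := by
  obtain ⟨v, hvE, hvg, hv⟩ := cob_gen X.toSpecialFibre 0 2 hx' hx
  have hv0 : v = 0 := by
    funext a
    by_cases hc : InColumn (0 - 1) a
    · have h1 := (hvE a).1
      have hc1 := hc.1
      have hc2 := hc.2
      rw [show |(0 : ℤ) - 1| = 1 by norm_num] at hc1
      rcases Nat.lt_or_ge a 2 with ha | ha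
      · have ha1 : a = 1 := by omega
        subst ha1
        have h3 := comp_gen X.toSpecialFibre (0 - 1) hvg 1
        rw [show (((1 : ℕ) : ℤ) - (0 - 1)) / 2 = 1 by norm_num, zpow_one] at h3
        rw [show (2 : ℤ) + (0 - 1) - ((1 : ℕ) : ℤ) = 0 by norm_num] at h1
        exact h0_zero X hI hα 1 h1 h3
      · rw [X.gr_eq_bot a _ (Or.inl (by omega)), Submodule.mem_bot] at h1
        exact h1
    · exact (hvE a).2 hc
  rw [← hv, hv0, map_zero]

/-- The multiplicity on `H^2` of the generic fibre. -/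
theorem mult_eq (hq : 1 < q) (hI : HasIntegralFrobenius X.toSpecialFibre) {α : Ω}
    (hα : ¬ IsTateNumber q α) (hw : IsWeilNumber q 2 α) :
    multOf (X.actV 2 X.frob) α =
      finrank Ω (frobPart X.toSpecialFibre 0 2 α ⊓ LinearMap.ker (X.res 0) : Submodule Ω _) := by
  classical
  have := finite_V X 2
  have hF := weightFilt_W X 2
  have e0 : ((2 : ℕ) : ℤ) - 2 = 0 := by norm_num
  have hS : ∀ v x, (v, x) ∈ X.sp 2 2 → (X.actV 2 X.frob v, X.actC 0 X.frob x) ∈ X.sp 2 2 := by
    intro v x h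
    have := X.sp_act 2 2 v x X.frob h
    rwa [e0] at this
  set M := (X.actV 2 X.frob).maxGenEigenspace α with hM
  set Cα := Module.End.maxGenEigenspace (X.actC 0 X.frob) α with hCα
  let S' : Submodule Ω (X.V 2 × X.C) := X.sp 2 2 ⊓ M.prod Cα
  have a1 := finrank_map_add_ker (LinearMap.fst Ω (X.V 2) X.C) S'
  have a2 := finrank_map_add_ker (LinearMap.snd Ω (X.V 2) X.C) S'
  have b1 : S'.map (LinearMap.fst Ω (X.V 2) X.C) = M := by
    apply le_antisymm
    · rintro _ ⟨⟨v, x⟩, hv, rfl⟩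
      exact hv.2.1
    · intro v hv
      obtain ⟨x, hx⟩ := X.sp_left 2 2 v (hF.gen_le hq hw hv)
      obtain ⟨x', hx', hx''⟩ := exists_snd hS hx hv
      exact ⟨(v, x'), ⟨hx'', hv, hx'⟩, rfl⟩
  have b2 : S' ⊓ LinearMap.ker (LinearMap.fst Ω (X.V 2) X.C) = ⊥ := by
    rw [eq_bot_iff]
    rintro ⟨v, x⟩ ⟨⟨h1, h2⟩, h3⟩
    have h4 : v = 0 := h3
    subst h4
    have h5 : x ∈ X.coboundaries 0 2 := by
      have := (X.sp_ker 2 2 0 x h1).1 (Submodule.zero_mem _)
      rwa [e0] at this
    rw [Submodule.mem_bot, cob_zero X hI hα h5 h2.2]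
    rfl
  have b3 : S'.map (LinearMap.snd Ω (X.V 2) X.C) = X.cocycles 0 2 ⊓ Cα := by
    apply le_antisymm
    · rintro _ ⟨⟨v, x⟩, hv, rfl⟩
      refine ⟨?_, hv.2.2⟩
      have := (X.sp_mem 2 2 v x hv.1).2
      rwa [e0] at this
    · rintro x ⟨hx, hx'⟩
      obtain ⟨v, hv⟩ := X.sp_right 2 2 x (by rwa [e0])
      obtain ⟨v', hv', hv''⟩ := exists_fst hS hv hx'
      exact ⟨(v', x), ⟨hv'', hv', hx'⟩, rfl⟩
  have b4 : S' ⊓ LinearMap.ker (LinearMap.snd Ω (X.V 2) X.C) = ⊥ := by
    rw [eq_bot_iff]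
    rintro ⟨v, x⟩ ⟨⟨h1, h2⟩, h3⟩
    have h4 : x = 0 := h3
    subst h4
    have h5 : v ∈ X.W 2 (2 - 1) := (X.sp_ker 2 2 v 0 h1).2 (Submodule.zero_mem _)
    have h6 : v = 0 := hF.gen_inf hq hw h2.1 h5
    rw [Submodule.mem_bot, h6]
    rfl
  rw [b1, b2, finrank_bot] at a1
  rw [b3, b4, finrank_bot] at a2
  -- the cocycles
  have c1 := finrank_map_add_ker (LinearMap.single Ω X.H 0)
    (frobPart X.toSpecialFibre 0 2 α ⊓ LinearMap.ker (X.res 0) : Submodule Ω _)
  have c2 : (frobPart X.toSpecialFibre 0 2 α ⊓ LinearMap.ker (X.res 0) : Submodule Ω _) ⊓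
      LinearMap.ker (LinearMap.single Ω X.H 0) = ⊥ := by
    rw [eq_bot_iff]
    rintro z ⟨-, hz⟩
    have h3 : (Pi.single 0 z : X.C) = 0 := hz
    have h4 := congrFun h3 0
    rw [Pi.single_eq_same] at h4
    exact h4
  have c3 : (frobPart X.toSpecialFibre 0 2 α ⊓ LinearMap.ker (X.res 0) : Submodule Ω _).map
      (LinearMap.single Ω X.H 0) = X.cocycles 0 2 ⊓ Cα := by
    apply le_antisymm
    · rintro _ ⟨z, ⟨⟨hz1, hz2⟩, hz'⟩, rfl⟩
      refine ⟨⟨X.single_mem (inCol _ _ (by norm_num) (by norm_num)) (by simpa using hz1), ?_⟩,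
        single_gen X.toSpecialFibre 0 0 rfl hz2⟩
      rw [SetLike.mem_coe, LinearMap.mem_ker]
      show X.diff 0 (Pi.single 0 z : X.C) = 0
      rw [diff_single0, show X.res 0 z = 0 from hz', Pi.single_zero]
    · rintro x ⟨hx, hx'⟩
      obtain ⟨h0, h2, h02, -, ha⟩ := cocycle_zero_two X.toSpecialFibre hx
      have h2' : x 2 = 0 := by
        apply h0_zero X hI hα 2 h2
        have := comp_gen X.toSpecialFibre 0 hx' 2
        rwa [show (((2 : ℕ) : ℤ) - 0) / 2 = 1 by norm_num, zpow_one] at this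
      have h0' : x 0 ∈ (X.act 0 X.frob).maxGenEigenspace α := by
        have := comp_gen X.toSpecialFibre 0 hx' 0
        rwa [show (((0 : ℕ) : ℤ) - 0) / 2 = 0 by norm_num, zpow_zero, inv_one, one_mul] at this
      rw [h2', map_zero, add_zero] at h02
      refine ⟨x 0, ⟨⟨h0, h0'⟩, h02⟩, ?_⟩
      funext b
      show (Pi.single 0 (x 0) : X.C) b = x b
      by_cases hb : b = 0
      · subst hb
        rw [Pi.single_eq_same]
      · rw [Pi.single_eq_of_ne hb]
        by_cases hb2 : b = 2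
        · subst hb2
          exact h2'.symm
        · exact (ha b hb hb2).symm
  rw [c2, c3, finrank_bot] at c1
  unfold multOf
  rw [← hM]
  exact a1.trans (a2.symm.trans c1)

end threefold

end Pool.Agent.W2helper44.MW
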