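import Pool.Agent.W2helper44.MW.Mult

/-!
# Threefolds without differential forms of degree three
-/

namespace Pool.Agent.W2helper44.MW

universe u v u' v'

open Module Pool.Agent.Y143 Pool.Agent.X302.MW

variable {Ω : Type u} [Field Ω] [CharZero Ω] [IsAlgClosed Ω] {Γ : Type} {Ω' : Type u'} [Field Ω']
  [CharZero Ω'] [IsAlgClosed Ω'] {Γ' : Type} {q : ℕ}

omit [CharZero Ω'] [IsAlgClosed Ω'] in
/-- A number of slope different from one (less than one) is not a Tate number. -/
lemma not_tate_of_slope (hq : (q : Ω') ≠ 0) (R : ValuationSubring Ω') {α : Ω'} (hα : α / q ∉ R) :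
    ¬ ∃ k : ℕ, 0 < k ∧ α ^ k = (q : Ω') ^ k := by
  rintro ⟨k, hk, hk'⟩
  apply hα
  apply mem_of_int R
  refine IsIntegral.of_pow hk ?_
  rw [div_pow, hk', div_self (pow_ne_zero _ hq)]
  exact isIntegral_one

/-- The surjectivity of the restriction on the non-Tate part of `H^2`, if the slopes of `H^3` of the
generic fibre are at least one and if the multiplicities of the non-Tate eigenvalues on `H^2` of the
generic fibre are not larger in the first theory than in the second one. -/
theorem surj_of_same (X : SemistableModel.{u, v} Ω Γ 3 q) (X' : SemistableModel.{u', v'} Ω' Γ' 3 q)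
    (hq : IsPrimePow q)
    (hI : HasIntegralFrobenius X.toSpecialFibre) (hI' : HasIntegralFrobenius X'.toSpecialFibre)
    (hC0 : SameFrobenius X.toSpecialFibre X'.toSpecialFibre 0 2)
    (hC1 : SameFrobenius X.toSpecialFibre X'.toSpecialFibre 1 2)
    (hV : GenericFrobeniusLE X X' 2)
    (R : ValuationSubring Ω') (hR : ((q : Ω'))⁻¹ ∉ R)
    (h3 : ∀ α, IsEigenvalueOn X' 3 α → α / q ∈ R)
    (α : Ω) (hα : ¬ IsTateNumber q α) (z : X.H 1) (hz : z ∈ frobPart X.toSpecialFibre 1 2 α) :
    ∃ y ∈ frobPart X.toSpecialFibre 0 2 α, X.res 0 y = z := by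
  by_cases hz0 : z = 0
  · exact ⟨0, Submodule.zero_mem _, by rw [hz0, map_zero]⟩
  have hq1 : 1 < q := hq.one_lt
  have hq' : (q : Ω') ≠ 0 := Nat.cast_ne_zero.2 X'.q_ne
  obtain ⟨y, hy, hy0, hyα⟩ := exists_eigen_gr X.toSpecialFibre 1 2 hz hz0
  have hint := hI 1 2 α y hy hy0 hyα
  have hw := X.weil 1 2 α y hy hy0 hyα
  -- a conjugate of slope less than one
  obtain ⟨α', hα', hαR⟩ : ∃ α' : Ω', Polynomial.aeval α' (minpoly ℚ α) = 0 ∧ α' / q ∉ R := by
    by_contra hcon
    push Not at hcon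
    exact hα (tate_of_val hq R hR hint hw hcon)
  have halg : IsAlgebraic ℚ α := hw.1
  have hmin : minpoly ℚ α = minpoly ℚ α' :=
    minpoly.eq_of_irreducible_of_monic (minpoly.irreducible halg.isIntegral) hα'
      (minpoly.monic halg.isIntegral)
  have hconj : AreConjugate α α' :=
    ⟨halg, ⟨minpoly ℚ α, minpoly.ne_zero halg.isIntegral, hα'⟩, hmin⟩
  have hw' : IsWeilNumber q 2 α' := ⟨hconj.2.1, by rw [← hmin]; exact hw.2⟩
  have hαT' : ¬ IsTateNumber q α' := not_tate_of_slope hq' R hαR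
  -- the dimensions in the second theory
  have d1 := finrank_map_add_ker (X'.res 0) (frobPart X'.toSpecialFibre 0 2 α')
  have d2 : (frobPart X'.toSpecialFibre 0 2 α').map (X'.res 0) =
      frobPart X'.toSpecialFibre 1 2 α' := by
    apply le_antisymm
    · rintro _ ⟨y', hy', rfl⟩
      exact res_frobPart X'.toSpecialFibre 0 2 hy'
    · intro z' hz'
      obtain ⟨y', hy', hyz'⟩ := res_surj X' rfl hI' R h3 hαR hz'
      exact ⟨y', hy', hyz'⟩
  rw [d2, ← mult_eq X' hq1 hI' hαT' hw', ← hC0 α α' hconj, ← hC1 α α' hconj] at d1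
  have hle := hV α α' hconj hα
  rw [mult_eq X hq1 hI hα hw] at hle
  -- the dimensions in the first theory
  have d3 := finrank_map_add_ker (X.res 0) (frobPart X.toSpecialFibre 0 2 α)
  have hmap : (frobPart X.toSpecialFibre 0 2 α).map (X.res 0) ≤
      frobPart X.toSpecialFibre 1 2 α := by
    rintro _ ⟨y', hy', rfl⟩
    exact res_frobPart X.toSpecialFibre 0 2 hy'
  have heq : finrank Ω (frobPart X.toSpecialFibre 1 2 α) ≤
      finrank Ω ((frobPart X.toSpecialFibre 0 2 α).map (X.res 0)) := by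
    have d4 := d1.trans d3.symm
    have d5 := Nat.add_le_add_left hle (finrank Ω (frobPart X.toSpecialFibre 1 2 α))
    rw [d4] at d5
    exact Nat.le_of_add_le_add_right d5
  have hfull := Submodule.eq_of_le_of_finrank_le hmap heq
  rw [← hfull] at hz
  obtain ⟨y', hy', hyz'⟩ := hz
  exact ⟨y', hy', hyz'⟩

/-- **The monodromy-weight conjecture for threefolds without differential forms of degree
three.** -/
theorem mw_noforms (X : Degeneration.{u, v} Ω Γ 3 q) (A : DivisorClasses X.toSpecialFibre)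
    (X' : SemistableModel.{u', v'} Ω' Γ' 3 q) (hq : IsPrimePow q)
    (hI : HasIntegralFrobenius X.toSpecialFibre) (hI' : HasIntegralFrobenius X'.toSpecialFibre)
    (hC0 : SameFrobenius X.toSpecialFibre X'.toSpecialFibre 0 2)
    (hC1 : SameFrobenius X.toSpecialFibre X'.toSpecialFibre 1 2)
    (hV : GenericFrobeniusLE X.toSemistableModel X' 2)
    (R : ValuationSubring Ω') (hR : ((q : Ω'))⁻¹ ∉ R)
    (h3 : ∀ α, IsEigenvalueOn X' 3 α → α / q ∈ R) (hT : A.TateConj 0) (k : ℕ) :
    IsMWPure q k (X.actV k X.frob) (X.N k) :=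
  mw_three X rfl hI A hT (fun α hα z hz => surj_of_same X.toSemistableModel X' hq hI hI'
    hC0 hC1 hV R hR h3 α hα z hz) k

end Pool.Agent.W2helper44.MW
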