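import Pool.Agent.Y143.Divisors

/-!
# The transform `L⁻¹ ∘ τ ∘ ρ` on `H^2(Y^(1))` and dimensions in two theories
-/

namespace Pool.Agent.W2helper44.MW

universe u v

open Module Pool.Agent.Y143

section linear

variable {Ω : Type u} [Field Ω] {H : Type v} [AddCommGroup H] [Module Ω H] {H' : Type v}
  [AddCommGroup H'] [Module Ω H']

/-- The dimension of a subspace. -/
noncomputable def dimOf (W : Submodule Ω H) : ℤ := finrank Ω W

/-- The endomorphisms of a subspace. -/
abbrev EndOf (G : Submodule Ω H) : Type v := Module.End Ω G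

/-- `T` is the endomorphism `L⁻¹ ∘ τ ∘ ρ` of the subspace `G`: `L (T x) = τ (ρ x)` for `x ∈ G`. -/
def IsInvComp (G : Submodule Ω H) (L : Module.End Ω H) (ρ : H →ₗ[Ω] H') (τ : H' →ₗ[Ω] H)
    (T : EndOf G) : Prop := ∀ x : G, L (T x : H) = τ (ρ (x : H))

/-- The characteristic polynomial of an endomorphism of a subspace of a finite-dimensional space. -/
noncomputable def charpolyOf [Module.Finite Ω H] (G : Submodule Ω H) (T : EndOf G) :
    Polynomial Ω := LinearMap.charpoly T

end linear

/-- The polynomials `f` and `f'` have rational coefficients and are equal. -/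
def SameRational {Ω : Type*} [Field Ω] [CharZero Ω] {Ω' : Type*} [Field Ω'] [CharZero Ω']
    (f : Polynomial Ω) (f' : Polynomial Ω') : Prop :=
  ∃ P : Polynomial ℚ, f = P.map (algebraMap ℚ Ω) ∧ f' = P.map (algebraMap ℚ Ω')

section

variable {Ω : Type u} [Field Ω] [CharZero Ω] {Γ : Type} {n q : ℕ}

/-- The endomorphisms of `H^2(Y^(1))`. -/
abbrev EndH2 (X : SpecialFibre.{u, v} Ω Γ n q) : Type v := EndOf (X.gr 0 2)

/-- `T` is the endomorphism `L⁻¹ ∘ τ ∘ ρ` of `H^2(Y^(1))`, where `ρ : H^2(Y^(1)) → H^2(Y^(2))` is the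
restriction, `τ : H^2(Y^(2)) → H^4(Y^(1))` is the Gysin map and `L : H^2(Y^(1)) → H^4(Y^(1))` is the
Lefschetz operator (bijective if `Y^(1)` has dimension three). -/
def IsTransform (X : SpecialFibre.{u, v} Ω Γ n q) (T : EndH2 X) : Prop :=
  IsInvComp (X.gr 0 2) (X.lef 0) (X.res 0) (X.gys 0) T

/-- The strata have finite-dimensional cohomology. -/
lemma finiteH (X : SpecialFibre.{u, v} Ω Γ n q) (a : ℕ) : Module.Finite Ω (X.H a) :=
  (X.duality a).1.finite

/-- The characteristic polynomial of an endomorphism of `H^2(Y^(1))`. -/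
noncomputable def charpolyH2 (X : SpecialFibre.{u, v} Ω Γ n q) (T : EndH2 X) : Polynomial Ω :=
  have := finiteH X 0
  charpolyOf (X.gr 0 2) T

/-- The dimension of `H^0(Y^(a+1))`. -/
noncomputable def dimH0 (X : SpecialFibre.{u, v} Ω Γ n q) (a : ℕ) : ℤ := dimOf (X.gr a 0)

/-- The monodromy-weight conjecture for `X`: `H^k` of the geometric generic fibre is mw pure of
weight `k`, for all `k`. -/
def WeightMonodromy (X : SemistableModel.{u, v} Ω Γ n q) : Prop :=
  ∀ k : ℕ, IsMWPure q k (X.actV k X.frob) (X.N k)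

/-- The dimension of the graded piece of weight `w` of `H^k` of the geometric generic fibre. -/
noncomputable def grDim (X : SemistableModel.{u, v} Ω Γ n q) (k : ℕ) (w : ℤ) : ℤ :=
  dimOf (X.W k w) - dimOf (X.W k (w - 1))

/-- The number
`dim gr_2 H^2 - dim gr_4 H^2 - dim gr_2 H^1 - dim gr_0 H^0 + dim H^0(Y^(1)) + dim H^0(Y^(2))`,
where `H^k` is the cohomology of the geometric generic fibre with its weight filtration. -/
noncomputable def expected (X : SemistableModel.{u, v} Ω Γ n q) : ℤ :=
  grDim X 2 2 - grDim X 2 4 - grDim X 1 2 - grDim X 0 0 + dimH0 X.toSpecialFibre 0 +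
    dimH0 X.toSpecialFibre 1

end

/-- The strata have the same number of irreducible components, and the graded pieces of the weight
filtration of `H^k` of the geometric generic fibre for `k ≤ 2` have the same dimensions, in the two
theories. -/
structure SameDimensions {Ω : Type*} [Field Ω] [CharZero Ω] {Γ : Type} {Ω' : Type*} [Field Ω']
    [CharZero Ω'] {Γ' : Type} {n q : ℕ} (X : SemistableModel Ω Γ n q)
    (X' : SemistableModel Ω' Γ' n q) : Prop where
  components : ∀ a : ℕ, dimH0 X.toSpecialFibre a = dimH0 X'.toSpecialFibre a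
  generic : ∀ (k : ℕ) (w : ℤ), k ≤ 2 → grDim X k w = grDim X' k w

end Pool.Agent.W2helper44.MW
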