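import Pool.Agent.W2helper44.MW.Dims
import Pool.Agent.W2helper44.MW.TDefs

/-!
# Threefolds: the generalized kernel of the transform
-/

namespace Pool.Agent.W2helper44.MW

universe u v

open Module Pool.Agent.Y143 Pool.Agent.X302.MW

variable {Ω : Type u} [Field Ω] [CharZero Ω] {Γ : Type} {n q : ℕ}

section decomposition

variable {X : SpecialFibre.{u, v} Ω Γ n q} (A : DivisorClasses X)
include A

/-- A class of degree zero with vanishing restriction is the sum of a restriction and of a class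
killed by the Gysin map. -/
lemma decomp0 (a : ℕ) {k : X.H (a + 1)} (hk : k ∈ X.gr (a + 1) 0) (hRk : X.res (a + 1) k = 0) :
    ∃ u0 ∈ X.gr a 0, ∃ h : X.H (a + 1), X.gys a h = 0 ∧ k = X.res a u0 + h := by
  let Q1 : X.H (a + 1) →ₗ[Ω] X.H (a + 1) →ₗ[Ω] Ω :=
    (X.pair (a + 1)).compl₂ (X.lef (a + 1) ^ (n - (a + 1)))
  have hQ1 : ∀ x y, Q1 x y = X.pair (a + 1) x ((X.lef (a + 1) ^ (n - (a + 1))) y) := fun x y => rfl
  let F1 : Submodule Ω (X.H (a + 1)) := (X.gr a 0).map (X.res a)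
  have hF1 : ∀ x ∈ F1, (∀ y ∈ F1, Q1 x y = 0) → x = 0 := by
    rintro _ ⟨x, hx, rfl⟩ h
    exact image0 A a hx fun u hu => h _ ⟨u, hu, rfl⟩
  obtain ⟨_, ⟨u0, hu0, rfl⟩, hf⟩ := exists_repr Q1 F1 hF1 (Q1 k)
  refine ⟨u0, hu0, k - X.res a u0, ?_, by abel⟩
  have hh0 : k - X.res a u0 ∈ X.gr (a + 1) 0 := Submodule.sub_mem _ hk (X.res_gr a 0 _ hu0)
  have hRh : X.res (a + 1) (k - X.res a u0) = 0 := by rw [map_sub, hRk, X.res_res, sub_zero]
  apply gys_harm A a hh0 hRh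
  intro u hu
  have h1 := hf _ (show X.res a u ∈ F1 from ⟨u, hu, rfl⟩)
  rw [hQ1, hQ1] at h1
  rw [map_sub, LinearMap.sub_apply, h1, sub_self]

end decomposition

section three

variable {X : SpecialFibre.{u, v} Ω Γ 3 q}

/-- The subspace `W0 + L H^0(Y^(1))` of `H^2(Y^(1))`. -/
def P (X : SpecialFibre.{u, v} Ω Γ 3 q) : Submodule Ω (X.H 0) :=
  W0 X ⊔ (X.gr 0 0).map (X.lef 0)

lemma lef_inj2 {x : X.H 0} (hx : x ∈ X.gr 0 2) (h : X.lef 0 x = 0) : x = 0 := by
  apply X.lef_inj 0 1 x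
  · rwa [show ((3 : ℕ) : ℤ) - ((0 : ℕ) : ℤ) - ((1 : ℕ) : ℤ) = 2 by norm_num]
  · rwa [pow_one]

lemma lef_inj0 {x : X.H 0} (hx : x ∈ X.gr 0 0) (h : X.lef 0 x = 0) : x = 0 := by
  apply X.lef_inj 0 3 x
  · rwa [show ((3 : ℕ) : ℤ) - ((0 : ℕ) : ℤ) - ((3 : ℕ) : ℤ) = 0 by norm_num]
  · rw [pow_succ, Module.End.mul_apply, h, map_zero]

lemma P_le : P X ≤ X.gr 0 2 := by
  apply sup_le inf_le_left
  rintro _ ⟨u, hu, rfl⟩
  have := X.lef_gr 0 0 u hu
  rwa [show (0 : ℤ) + 2 = 2 by norm_num] at this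

/-- Elements with vanishing restriction belong to `W0`. -/
lemma ker_le_W0 {y : X.H 0} (hy : y ∈ X.gr 0 2) (h : X.res 0 y = 0) : y ∈ W0 X := by
  rw [mem_W0]
  exact ⟨hy, 0, Submodule.zero_mem _, map_zero _, by rw [h, map_zero]⟩

/-- `W0 ∩ L H^0 = L ker ρ`. -/
lemma inf_eq (A : DivisorClasses X) : W0 X ⊓ (X.gr 0 0).map (X.lef 0) =
    (X.gr 0 0 ⊓ LinearMap.ker (X.res 0)).map (X.lef 0) := by
  apply le_antisymm
  · rintro _ ⟨hy, u, hu, rfl⟩
    refine ⟨u, ⟨hu, ?_⟩, rfl⟩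
    obtain ⟨-, v, -, -, h2⟩ := (mem_W0 X).1 hy
    apply crit0 A 0 hu
    have h3 : X.lef 0 (X.gys 0 (X.res 0 u)) = 0 := by
      rw [← X.gys_lef, ← X.res_lef, h2, X.gys_gys]
    apply lef_inj2 _ h3
    have := X.gys_gr 0 0 _ (X.res_gr 0 0 u hu)
    rwa [show (0 : ℤ) + 2 = 2 by norm_num] at this
  · rintro _ ⟨u, ⟨hu, hu'⟩, rfl⟩
    refine ⟨?_, u, hu, rfl⟩
    apply ker_le_W0
    · have := X.lef_gr 0 0 u hu
      rwa [show (0 : ℤ) + 2 = 2 by norm_num] at this
    · rw [X.res_lef, show X.res 0 u = 0 from hu', map_zero]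

lemma finrank_lef {U : Submodule Ω (X.H 0)} (hU : U ≤ X.gr 0 0) :
    finrank Ω (U.map (X.lef 0)) = finrank Ω U := by
  have h1 := finrank_map_add_ker (X.lef 0) U
  have h2 : U ⊓ LinearMap.ker (X.lef 0) = ⊥ := by
    rw [eq_bot_iff]
    rintro x ⟨hx, hx'⟩
    exact lef_inj0 (hU hx) hx'
  rw [h2, finrank_bot] at h1
  exact_mod_cast h1

lemma finrank_P (A : DivisorClasses X) :
    finrank Ω (P X) + finrank Ω (X.gr 0 0 ⊓ LinearMap.ker (X.res 0) : Submodule Ω _) =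
      finrank Ω (W0 X) + finrank Ω (X.gr 0 0) := by
  have h1 := Submodule.finrank_sup_add_finrank_inf_eq (W0 X) ((X.gr 0 0).map (X.lef 0))
  rw [inf_eq A, finrank_lef le_rfl, finrank_lef inf_le_left] at h1
  exact h1

variable {T : Module.End Ω (X.gr 0 2)} (hT : IsTransform X T)
include hT

omit hT in
lemma lef_T (hT : IsTransform X T) (x : X.gr 0 2) :
    X.lef 0 (T x : X.H 0) = X.gys 0 (X.res 0 (x : X.H 0)) := hT x

lemma T_eq {x z : X.gr 0 2} (h : X.lef 0 (z : X.H 0) = X.gys 0 (X.res 0 (x : X.H 0))) :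
    T x = z := by
  apply Subtype.ext
  have h1 : X.lef 0 ((T x : X.H 0) - z) = 0 := by rw [map_sub, lef_T hT x, h, sub_self]
  have h2 := lef_inj2 (Submodule.sub_mem _ (T x).2 z.2) h1
  exact sub_eq_zero.1 h2

/-- The transform is nilpotent on `P`. -/
lemma T_T {x : X.gr 0 2} (hx : (x : X.H 0) ∈ P X) : T (T x) = 0 := by
  obtain ⟨w, hw, _, ⟨u, hu, rfl⟩, hwu⟩ := Submodule.mem_sup.1 hx
  obtain ⟨hw2, v, -, -, h2⟩ := (mem_W0 X).1 hw
  have hz : X.gys 0 (X.res 0 u) ∈ X.gr 0 2 := by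
    have := X.gys_gr 0 0 _ (X.res_gr 0 0 u hu)
    rwa [show (0 : ℤ) + 2 = 2 by norm_num] at this
  have h3 : T x = ⟨X.gys 0 (X.res 0 u), hz⟩ := by
    apply T_eq hT
    have z0 : ∀ t : X.H 0, 0 + t = t := fun t => zero_add t
    rw [← hwu, map_add, map_add, h2, X.gys_gys, z0, X.res_lef, X.gys_lef]
  rw [h3]
  apply T_eq hT
  have h4 : X.res 0 (X.gys 0 (X.res 0 u)) = 0 := by
    have := X.res_gys 0 (X.res 0 u)
    rwa [X.res_res, map_zero, add_zero] at this
  show X.lef 0 ((0 : X.gr 0 2) : X.H 0) = X.gys 0 (X.res 0 (X.gys 0 (X.res 0 u)))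
  rw [h4, map_zero]
  exact map_zero _

/-- **First step.** If `T v` belongs to `P`, then `ρ (T v) = 0`. -/
lemma res_T (A : DivisorClasses X) {v : X.gr 0 2} (hv : (T v : X.H 0) ∈ P X) :
    X.res 0 (T v : X.H 0) = 0 := by
  obtain ⟨w, hw, _, ⟨u, hu, rfl⟩, hwu⟩ := Submodule.mem_sup.1 hv
  obtain ⟨-, h2, hh2, hh2', hw2⟩ := (mem_W0 X).1 hw
  obtain ⟨u1, hu1, h, hh, hdec⟩ := decomp0 A 1 hh2 hh2'
  rw [hdec, map_add, hh, add_zero] at hw2
  -- the restriction of `T v`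
  have hz : X.res 0 (T v : X.H 0) = X.gys 1 (X.res 1 u1) + X.lef 1 (X.res 0 u) := by
    rw [← hwu, map_add, hw2, X.res_lef]
  have hL : X.lef 1 (X.res 0 (T v : X.H 0)) = 0 := by
    rw [← X.res_lef, lef_T hT v]
    have := X.res_gys 0 (X.res 0 (v : X.H 0))
    rwa [X.res_res, map_zero, add_zero] at this
  have key : ∀ u'', X.pair 2 (X.res 1 u1) (X.lef 2 (X.res 1 u'')) +
      X.pair 1 (X.res 0 u) (X.lef 1 (X.lef 1 u'')) = 0 := by
    intro u''
    have h3 : X.pair 1 (X.lef 1 (X.res 0 (T v : X.H 0))) u'' = 0 := by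
      rw [hL, map_zero, LinearMap.zero_apply]
    rw [X.lef_pair, hz, map_add, LinearMap.add_apply, X.pair_gys, X.res_lef, X.lef_pair] at h3
    exact h3
  have hu0 : X.res 0 u = 0 := by
    apply image0 A 0 hu
    intro u' _
    have h3 := key (X.res 0 u')
    rw [X.res_res, map_zero, map_zero, zero_add] at h3
    exact h3
  have hu10 : X.res 1 u1 = 0 := by
    apply image0 A 1 hu1
    intro u' _
    have h3 := key u'
    rw [hu0, map_zero, LinearMap.zero_apply, add_zero] at h3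
    exact h3
  rw [hz, hu0, hu10, map_zero, map_zero, add_zero]

/-- If the generalized kernel of the transform is contained in `P`, the critical condition holds. -/
lemma crit_of_le (A : DivisorClasses X)
    (h : ∀ x : X.gr 0 2, x ∈ T.maxGenEigenspace 0 → (x : X.H 0) ∈ P X) : Crit X := by
  intro y hy hG
  have h1 : T ⟨y, hy⟩ = 0 := by
    apply T_eq hT
    rw [show ((⟨y, hy⟩ : X.gr 0 2) : X.H 0) = y from rfl, hG]
    exact map_zero _
  have h2 : (⟨y, hy⟩ : X.gr 0 2) ∈ T.maxGenEigenspace 0 := by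
    rw [Module.End.mem_maxGenEigenspace]
    exact ⟨1, by rw [pow_one, zero_smul, sub_zero, h1]⟩
  obtain ⟨w, hw, _, ⟨u, hu, rfl⟩, hwu⟩ := Submodule.mem_sup.1 (h _ h2)
  have hwu' : w + X.lef 0 u = y := hwu
  obtain ⟨hw2, v, hv, hv', h3⟩ := (mem_W0 X).1 hw
  have hu0 : X.res 0 u = 0 := by
    apply crit0 A 0 hu
    have h4 : X.lef 0 (X.gys 0 (X.res 0 u)) = 0 := by
      rw [← hwu', map_add, map_add, h3, X.gys_gys, zero_add, X.res_lef, X.gys_lef] at hG
      exact hG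
    apply lef_inj2 _ h4
    have := X.gys_gr 0 0 _ (X.res_gr 0 0 u hu)
    rwa [show (0 : ℤ) + 2 = 2 by norm_num] at this
  refine ⟨v, hv, hv', ?_⟩
  rw [← hwu', map_add, h3, X.res_lef, hu0, map_zero, add_zero]

lemma P_le_gen {x : X.gr 0 2} (hx : (x : X.H 0) ∈ P X) : x ∈ T.maxGenEigenspace 0 := by
  rw [Module.End.mem_maxGenEigenspace]
  refine ⟨2, ?_⟩
  rw [zero_smul, sub_zero, pow_two, Module.End.mul_apply]
  exact T_T hT hx

end three

section degeneration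

variable {X : Degeneration.{u, v} Ω Γ 3 q} {T : Module.End Ω (X.gr 0 2)}
  (hT : IsTransform X.toSpecialFibre T)
include hT

/-- **Second step.** Under the critical condition, if `ρ (T v) = 0` then `v` belongs to `P`. -/
lemma mem_P_of_res (A : DivisorClasses X.toSpecialFibre) (hC : Crit X.toSpecialFibre)
    {v : X.gr 0 2} (hv : X.res 0 (T v : X.H 0) = 0) : (v : X.H 0) ∈ P X.toSpecialFibre := by
  classical
  have hz : (Pi.single 0 (T v : X.H 0) : X.C) ∈ X.cocycles 0 2 := by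
    refine ⟨X.single_mem (inCol _ _ (by norm_num) (by norm_num)) (by
      rw [show (2 : ℤ) + 0 - ((0 : ℕ) : ℤ) = 2 by norm_num]
      exact (T v).2), ?_⟩
    rw [SetLike.mem_coe, LinearMap.mem_ker, diff_single0, hv, Pi.single_zero]
  have h1 : (X.lefC ^ 1) (Pi.single 0 (T v : X.H 0) : X.C) ∈ X.coboundaries 0 4 := by
    refine ⟨Pi.single 1 (X.res 0 (v : X.H 0)), ?_, ?_⟩
    · rw [show (0 : ℤ) - 1 = -1 by norm_num]
      apply X.single_mem (inCol _ _ (by norm_num) (by norm_num))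
      rw [show (4 : ℤ) + -1 - ((1 : ℕ) : ℤ) = 2 by norm_num]
      exact X.res_gr 0 2 _ v.2
    · rw [show (0 : ℤ) - 1 = -1 by norm_num, diff_single1, X.res_res, Pi.single_zero, add_zero,
        pow_one]
      funext b
      rw [X.lefC_apply]
      by_cases hb : b = 0
      · subst hb
        rw [Pi.single_eq_same, Pi.single_eq_same, lef_T hT v]
      · rw [Pi.single_eq_of_ne hb, Pi.single_eq_of_ne hb, map_zero]
  have h2 := X.lefschetz_inj 0 1 (Pi.single 0 (T v : X.H 0)) (by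
    rwa [show ((3 : ℕ) : ℤ) - ((1 : ℕ) : ℤ) - 0 = 2 by norm_num]) (by
    rwa [show ((3 : ℕ) : ℤ) + ((1 : ℕ) : ℤ) - 0 = 4 by norm_num])
  rw [show ((3 : ℕ) : ℤ) - ((1 : ℕ) : ℤ) - 0 = 2 by norm_num] at h2
  obtain ⟨t, ht, htx⟩ := h2
  rw [show (0 : ℤ) - 1 = -1 by norm_num] at ht htx
  have ht1 : t 1 ∈ X.gr 1 0 := by
    have := (ht 1).1
    rwa [show (2 : ℤ) + -1 - ((1 : ℕ) : ℤ) = 0 by norm_num] at this
  have ht3 : t 3 = 0 := by
    have h3 := (ht 3).1
    rw [show (2 : ℤ) + -1 - ((3 : ℕ) : ℤ) = -2 by norm_num, X.gr_eq_bot 3 _ (Or.inl (by norm_num)),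
      Submodule.mem_bot] at h3
    exact h3
  have e0 : X.gys 0 (t 1) = (T v : X.H 0) := by
    have h3 := congrFun htx 0
    rw [X.diff_apply, X.cut_of (inCol _ _ (by norm_num) (by norm_num)), Pi.add_apply,
      X.gysC_apply, Pi.single_eq_same, X.resC_zero] at h3
    have h9 : (0 : X.H 0) + X.gys 0 (t 1) = X.gys 0 (t 1) := zero_add _
    exact h9.symm.trans h3
  have e2 : X.res 1 (t 1) = 0 := by
    have h3 := congrFun htx 2
    rw [X.diff_apply, X.cut_of (inCol _ _ (by norm_num) (by norm_num)), Pi.add_apply,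
      X.gysC_apply, Pi.single_eq_of_ne (by norm_num)] at h3
    have h5 : X.res 1 (t 1) + X.gys 2 (t 3) = 0 := h3
    rw [ht3, map_zero, add_zero] at h5
    exact h5
  obtain ⟨x0, hx0, h, hh, hdec⟩ := decomp0 A 0 ht1 e2
  rw [hdec, map_add, hh, add_zero] at e0
  have hLx : X.lef 0 x0 ∈ X.gr 0 2 := by
    have := X.lef_gr 0 0 x0 hx0
    rwa [show (0 : ℤ) + 2 = 2 by norm_num] at this
  have h4 : X.gys 0 (X.res 0 ((v : X.H 0) - X.lef 0 x0)) = 0 := by
    rw [map_sub, map_sub, ← lef_T hT v, ← e0, X.res_lef, X.gys_lef, sub_self]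
  have h5 : (v : X.H 0) - X.lef 0 x0 ∈ W0 X.toSpecialFibre := by
    rw [mem_W0]
    exact ⟨Submodule.sub_mem _ v.2 hLx, hC _ (Submodule.sub_mem _ v.2 hLx) h4⟩
  exact Submodule.mem_sup.2 ⟨_, h5, X.lef 0 x0, ⟨x0, hx0, rfl⟩, by abel⟩

/-- Under the critical condition, the generalized kernel of the transform is `P`. -/
lemma gen_le_P (A : DivisorClasses X.toSpecialFibre) (hC : Crit X.toSpecialFibre)
    {x : X.gr 0 2} (hx : x ∈ T.maxGenEigenspace 0) : (x : X.H 0) ∈ P X.toSpecialFibre := by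
  obtain ⟨N, hN⟩ := (Module.End.mem_maxGenEigenspace _ _ _).1 hx
  rw [zero_smul, sub_zero] at hN
  clear hx
  induction N generalizing x with
  | zero =>
    have h1 : x = 0 := by simpa using hN
    rw [h1]
    exact Submodule.zero_mem _
  | succ N ih =>
    rw [pow_succ, Module.End.mul_apply] at hN
    exact mem_P_of_res hT A hC (res_T hT A (ih hN))

/-- The critical condition in terms of the dimension of the generalized kernel. -/
theorem crit_iff (A : DivisorClasses X.toSpecialFibre) : Crit X.toSpecialFibre ↔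
    finrank Ω (T.maxGenEigenspace 0) = finrank Ω (P X.toSpecialFibre) := by
  -- `P` as a subspace of `H^2(Y^(1))`
  have hP : finrank Ω ((P X.toSpecialFibre).comap (X.gr 0 2).subtype) =
      finrank Ω (P X.toSpecialFibre) :=
    (Submodule.comapSubtypeEquivOfLe P_le).finrank_eq
  have hle : (P X.toSpecialFibre).comap (X.gr 0 2).subtype ≤ T.maxGenEigenspace 0 :=
    fun x hx => P_le_gen hT hx
  constructor
  · intro hC
    have h1 : T.maxGenEigenspace 0 ≤ (P X.toSpecialFibre).comap (X.gr 0 2).subtype :=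
      fun x hx => gen_le_P hT A hC hx
    rw [← hP, le_antisymm h1 hle]
  · intro hd
    apply crit_of_le hT A
    intro x hx
    have h1 := Submodule.eq_of_le_of_finrank_eq hle (by rw [hP, hd])
    rw [← h1] at hx
    exact hx

end degeneration

end Pool.Agent.W2helper44.MW
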